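import Pool.Agent.H98.BR.Sv
import Pool.Agent.H98.BR.L.H417R2.CH.REGW
import Pool.Agent.H98.BR.L.H417R2.CH.EIGF
import Pool.Agent.H98.BR.L.H417R2.CH.LAP1

set_option autoImplicit false

/-!
# The eigenfunctions of a spectral system are classical
-/

namespace Pool.Agent.H98.BR

open MeasureTheory Set Filter Topology
open Pool.Agent.Helper546 (V cV Tst lap dd)
open Pool.Agent.H417R2.CH (H10 gd IntEst PC)
open scoped ContDiff InnerProductSpace NNReal

/-- the Cauchy–Schwarz inequality for sums -/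
theorem hasSum_cs {ι : Type} {w a b : ι → ℝ} {A B C : ℝ} (hw : ∀ j, 0 ≤ w j)
    (hA : HasSum (fun j => w j * a j ^ 2) A) (hB : HasSum (fun j => w j * b j ^ 2) B)
    (hC : HasSum (fun j => w j * (a j * b j)) C) : C ^ 2 ≤ A * B := by
  have hfin : ∀ s : Finset ι, (∑ j ∈ s, w j * (a j * b j)) ^ 2 ≤ A * B := by
    intro s
    refine (Finset.sum_sq_le_sum_mul_sum_of_sq_le_mul s (f := fun j => w j * a j ^ 2)
      (g := fun j => w j * b j ^ 2) (fun j _ => mul_nonneg (hw j) (sq_nonneg _))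
      (fun j _ => mul_nonneg (hw j) (sq_nonneg _)) (fun j _ => le_of_eq (by ring))).trans ?_
    have h1 := sum_le_hasSum s (fun j _ => mul_nonneg (hw j) (sq_nonneg (a j))) hA
    have h2 := sum_le_hasSum s (fun j _ => mul_nonneg (hw j) (sq_nonneg (b j))) hB
    have h3 : 0 ≤ ∑ j ∈ s, w j * b j ^ 2 :=
      Finset.sum_nonneg fun j _ => mul_nonneg (hw j) (sq_nonneg _)
    have h4 : 0 ≤ A := (Finset.sum_nonneg fun j _ => mul_nonneg (hw j) (sq_nonneg _)).trans h1
    exact mul_le_mul h1 h2 h3 h4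
  exact le_of_tendsto' (hC.pow 2) hfin

/-! ## Lipschitz functions with compact support -/

section

variable {U : Set V} {f g : V → ℝ}

lemma LcV.cont (hf : f ∈ LcV U) : Continuous f := by
  obtain ⟨⟨K, hK⟩, -⟩ := hf
  exact hK.continuous

lemma LcV.memLp (hf : f ∈ LcV U) : MemLp f 2 :=
  (LcV.cont hf).memLp_of_hasCompactSupport hf.2.1

lemma LcV.zero (hf : f ∈ LcV U) {x : V} (hx : x ∉ U) : f x = 0 := by
  by_contra h
  exact hx (hf.2.2 (subset_tsupport f h))

lemma LcV.comb (hf : f ∈ LcV U) (hg : g ∈ LcV U) (c : ℝ) : (fun x => f x + c * g x) ∈ LcV U := by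
  obtain ⟨⟨K, hK⟩, hf2, hf3⟩ := hf
  obtain ⟨⟨L, hL⟩, hg2, hg3⟩ := hg
  have hs : tsupport (fun x => f x + c * g x) ⊆ tsupport f ∪ tsupport g := by
    apply closure_minimal _ ((isClosed_tsupport f).union (isClosed_tsupport g))
    intro z hz
    by_contra hcon
    rw [Set.mem_union, not_or] at hcon
    apply hz
    show f z + c * g z = 0
    rw [image_eq_zero_of_notMem_tsupport hcon.1, image_eq_zero_of_notMem_tsupport hcon.2,
      mul_zero, add_zero]
  have h1 : IsCompact (tsupport f ∪ tsupport g) := hf2.isCompact.union hg2.isCompact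
  refine ⟨⟨K + Real.toNNReal |c| * L, hK.add ?_⟩,
    h1.of_isClosed_subset (isClosed_tsupport _) hs, hs.trans (Set.union_subset hf3 hg3)⟩
  refine LipschitzWith.of_dist_le_mul fun x y => ?_
  have h2 := hL.dist_le_mul x y
  rw [Real.dist_eq] at h2
  rw [Real.dist_eq, ← mul_sub, abs_mul, NNReal.coe_mul, Real.coe_toNNReal _ (abs_nonneg c),
    mul_assoc]
  exact mul_le_mul_of_nonneg_left h2 (abs_nonneg c)

lemma LcV.ae_diff (hf : f ∈ LcV U) : ∀ᵐ x, DifferentiableAt ℝ f x := by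
  obtain ⟨⟨K, hK⟩, -⟩ := hf
  exact hK.ae_differentiableAt

lemma tst_lc (hf : Tst U f) : f ∈ LcV U :=
  ⟨ContDiff.lipschitzWith_of_hasCompactSupport hf.2.1 hf.1 (by simp), hf.2.1, hf.2.2⟩

lemma tst_memLp (hf : Tst U f) : MemLp f 2 := LcV.memLp (tst_lc hf)

lemma tst_zero (hf : Tst U f) {x : V} (hx : x ∉ U) : f x = 0 := LcV.zero (tst_lc hf) hx

lemma tst_comb (hf : Tst U f) (hg : Tst U g) (c : ℝ) : Tst U (fun x => f x + c * g x) := by
  have := hf.add (hg.smul c)
  exact this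

lemma grad_comb (hf : Tst U f) (hg : Tst U g) (c : ℝ) (x : V) :
    gradient (fun x => f x + c * g x) x = gradient f x + c • gradient g x := by
  have h1 : DifferentiableAt ℝ f x := hf.1.differentiable (by simp) x
  have h2 : DifferentiableAt ℝ g x := hg.1.differentiable (by simp) x
  unfold gradient
  rw [fderiv_fun_add h1 (h2.const_mul c), fderiv_const_mul h2, map_add, map_smul]

lemma norm_grad (f : V → ℝ) (x : V) : ‖gradient f x‖ = ‖fderiv ℝ f x‖ := by
  unfold gradient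
  rw [LinearIsometryEquiv.norm_map]

lemma grad_memLp (hf : Tst U f) : MemLp (gradient f) 2 (volume : Measure V) :=
  Pool.Agent.H417R2.CH.EIGF.memLp_grad hf

end

/-! ## Approximation of the eigenfunctions -/

section

variable {ι : Type} {U : Set V} {u : ι → V → ℝ} {E : ι → ℝ}

lemma int_mul {f g : V → ℝ} (hf : MemLp f 2) (hg : MemLp g 2) : Integrable fun x => f x * g x :=
  hf.integrable_mul hg

lemma coef_comb (S : SV U u E) {f g : V → ℝ} (hf : MemLp f 2) (hg : MemLp g 2) (c : ℝ) (k : ι) :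
    ∫ x, (f x + c * g x) * u k x = (∫ x, f x * u k x) + c * ∫ x, g x * u k x := by
  rw [← integral_const_mul, ← integral_add (int_mul hf (S.mem k))
    ((int_mul hg (S.mem k)).const_mul c)]
  congr 1
  funext x
  ring

lemma coef_sub (S : SV U u E) {f g : V → ℝ} (hf : MemLp f 2) (hg : MemLp g 2) (k : ι) :
    ∫ x, (f x - g x) * u k x = (∫ x, f x * u k x) - ∫ x, g x * u k x := by
  rw [← integral_sub (int_mul hf (S.mem k)) (int_mul hg (S.mem k))]
  congr 1
  funext x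
  ring

lemma coef_self (S : SV U u E) (k : ι) : ∫ x, u k x * u k x = 1 := by
  have := S.norm k
  simpa [sq] using this

open Classical in
lemma coef_delta (S : SV U u E) (k j : ι) : ∫ x, u k x * u j x = if j = k then 1 else 0 := by
  split_ifs with h
  · rw [h]; exact coef_self S k
  · exact S.orth k j (Ne.symm h)

/-- bilinear form of Parseval's identity -/
lemma pars2 (S : SV U u E) {f g : V → ℝ} (hf : MemLp f 2) (hg : MemLp g 2)
    (hf0 : ∀ x, x ∉ U → f x = 0) (hg0 : ∀ x, x ∉ U → g x = 0) :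
    HasSum (fun k => (∫ x, f x * u k x) * ∫ x, g x * u k x) (∫ x, f x * g x) := by
  have h1 := S.pars (fun x => f x + 1 * g x) (hf.add (hg.const_mul 1)) fun x hx => by
    rw [hf0 x hx, hg0 x hx]; simp
  have h2 := S.pars (fun x => f x + (-1) * g x) (hf.add (hg.const_mul (-1))) fun x hx => by
    rw [hf0 x hx, hg0 x hx]; simp
  have h3 := (h1.sub h2).mul_left (1 / 4)
  have e1 : ∀ c : ℝ, c ^ 2 = 1 → ∫ x, (f x + c * g x) ^ 2 =
      (∫ x, f x ^ 2) + (∫ x, g x ^ 2) + 2 * c * ∫ x, f x * g x := by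
    intro c hc
    have i1 : Integrable fun x => f x ^ 2 + g x ^ 2 := hf.integrable_sq.add hg.integrable_sq
    rw [← integral_const_mul, ← integral_add hf.integrable_sq hg.integrable_sq,
      ← integral_add i1 ((int_mul hf hg).const_mul _)]
    congr 1
    funext x
    have : (f x + c * g x) ^ 2 = f x ^ 2 + c ^ 2 * g x ^ 2 + 2 * c * (f x * g x) := by ring
    rw [this, hc, one_mul]
  rw [e1 1 (by norm_num), e1 (-1) (by norm_num)] at h3
  have e2 : 1 / 4 * ((∫ x, f x ^ 2) + (∫ x, g x ^ 2) + 2 * 1 * (∫ x, f x * g x) -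
      ((∫ x, f x ^ 2) + (∫ x, g x ^ 2) + 2 * (-1) * ∫ x, f x * g x)) = ∫ x, f x * g x := by
    ring
  rw [e2] at h3
  refine h3.congr_fun fun k => ?_
  rw [coef_comb S hf hg, coef_comb S hf hg]
  ring

/-- polarisation of the form identity -/
lemma form2 (S : SV U u E) {f g : V → ℝ} (hf : Tst U f) (hg : Tst U g) :
    HasSum (fun k => E k * ((∫ x, f x * u k x) * ∫ x, g x * u k x))
      (∫ x, ⟪gradient f x, gradient g x⟫_ℝ) := by
  have h1 := S.form _ (tst_lc (tst_comb hf hg 1))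
  have h2 := S.form _ (tst_lc (tst_comb hf hg (-1)))
  have h3 := (h1.sub h2).mul_left (1 / 4)
  have gf := grad_memLp hf
  have gg := grad_memLp hg
  have i1 : Integrable fun x => ‖gradient f x‖ ^ 2 := gf.norm.integrable_sq
  have i2 : Integrable fun x => ‖gradient g x‖ ^ 2 := gg.norm.integrable_sq
  have i3 : Integrable fun x => ⟪gradient f x, gradient g x⟫_ℝ := by
    refine Integrable.mono' (i1.add i2) (gf.1.inner gg.1) (ae_of_all _ fun x => ?_)
    have h4 := abs_real_inner_le_norm (gradient f x) (gradient g x)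
    have h5 := two_mul_le_add_sq ‖gradient f x‖ ‖gradient g x‖
    have h6 : 0 ≤ ‖gradient f x‖ * ‖gradient g x‖ := by positivity
    rw [Real.norm_eq_abs]
    simp only [Pi.add_apply]
    linarith
  have e1 : ∀ c : ℝ, c ^ 2 = 1 → ∫ x, ‖fderiv ℝ (fun x => f x + c * g x) x‖ ^ 2 =
      (∫ x, ‖gradient f x‖ ^ 2) + (∫ x, ‖gradient g x‖ ^ 2) +
        2 * c * ∫ x, ⟪gradient f x, gradient g x⟫_ℝ := by
    intro c hc
    have i4 : Integrable fun x => ‖gradient f x‖ ^ 2 + ‖gradient g x‖ ^ 2 := i1.add i2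
    rw [← integral_const_mul, ← integral_add i1 i2, ← integral_add i4 (i3.const_mul _)]
    congr 1
    funext x
    rw [← norm_grad, grad_comb hf hg c x, norm_add_sq_real, real_inner_smul_right, norm_smul,
      mul_pow, Real.norm_eq_abs, sq_abs, hc]
    ring
  rw [e1 1 (by norm_num), e1 (-1) (by norm_num)] at h3
  have e2 : 1 / 4 * ((∫ x, ‖gradient f x‖ ^ 2) + (∫ x, ‖gradient g x‖ ^ 2) +
      2 * 1 * (∫ x, ⟪gradient f x, gradient g x⟫_ℝ) -
      ((∫ x, ‖gradient f x‖ ^ 2) + (∫ x, ‖gradient g x‖ ^ 2) +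
        2 * (-1) * ∫ x, ⟪gradient f x, gradient g x⟫_ℝ)) =
      ∫ x, ⟪gradient f x, gradient g x⟫_ℝ := by
    ring
  rw [e2] at h3
  refine h3.congr_fun fun k => ?_
  rw [coef_comb S (tst_memLp hf) (tst_memLp hg), coef_comb S (tst_memLp hf) (tst_memLp hg)]
  ring

/-- the core consists of smooth functions -/
lemma core_tst (hU : IsOpen U) (S : SV U u E) (k : ι) {ε : ℝ} (hε : 0 < ε) :
    ∃ φ, Tst U φ ∧ ∃ s : ℝ, s < ε ∧
      HasSum (fun j => (1 + E j) * (∫ x, (φ x - u k x) * u j x) ^ 2) s := by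
  obtain ⟨f, hf, s, hs, hsum⟩ := S.core k (ε / 8) (by positivity)
  obtain ⟨⟨K, hK⟩, hf2, hf3⟩ := id hf
  obtain ⟨φ, hφ, h1, h2, -, -⟩ := Pool.Agent.H417R2.CH.t_LAP1 U hU f K hK hf2 hf3 (ε / 8)
    (by positivity)
  have hd : (fun x => f x + (-1) * φ x) ∈ LcV U := LcV.comb hf (tst_lc hφ) (-1)
  have p1 := S.form _ hd
  have p2 := S.pars _ (LcV.memLp hd) fun x hx => LcV.zero hd hx
  have e1 : ∫ x, ‖fderiv ℝ (fun x => f x + (-1) * φ x) x‖ ^ 2 =
      ∫ x, ‖gradient f x - gradient φ x‖ ^ 2 := by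
    refine integral_congr_ae ?_
    filter_upwards [LcV.ae_diff hf] with x hx
    have hx2 : DifferentiableAt ℝ φ x := hφ.1.differentiable (by simp) x
    rw [← Pool.Agent.H417R2.CH.EIGF.norm_grad_sub φ f x, fderiv_fun_add hx (hx2.const_mul (-1)),
      fderiv_const_mul hx2, norm_sub_rev]
    congr 2
    module
  have e2 : ∫ x, (f x + (-1) * φ x) ^ 2 = ∫ x, (f x - φ x) ^ 2 := by
    congr 1
    funext x
    ring
  rw [e1] at p1
  rw [e2] at p2
  have hc : ∀ j, 0 ≤ 1 + E j := fun j => add_nonneg zero_le_one (S.pos j)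
  have p3 := ((p1.add p2).add hsum).mul_left 2
  have hle : ∀ j, (1 + E j) * (∫ x, (φ x - u k x) * u j x) ^ 2 ≤
      2 * (E j * (∫ x, (f x + (-1) * φ x) * u j x) ^ 2 + (∫ x, (f x + (-1) * φ x) * u j x) ^ 2 +
        (1 + E j) * (∫ x, (f x - u k x) * u j x) ^ 2) := by
    intro j
    rw [coef_sub S (tst_memLp hφ) (S.mem k), coef_sub S (LcV.memLp hf) (S.mem k),
      coef_comb S (LcV.memLp hf) (tst_memLp hφ)]
    have h3 : ∀ a b c : ℝ, (b - c) ^ 2 ≤ 2 * ((a + -1 * b) ^ 2 + (a - c) ^ 2) := fun a b c => by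
      nlinarith [sq_nonneg (2 * a - b - c)]
    have := mul_le_mul_of_nonneg_left
      (h3 (∫ x, f x * u j x) (∫ x, φ x * u j x) (∫ x, u k x * u j x)) (hc j)
    linarith
  have hsm : Summable fun j => (1 + E j) * (∫ x, (φ x - u k x) * u j x) ^ 2 :=
    Summable.of_nonneg_of_le (fun j => mul_nonneg (hc j) (sq_nonneg _)) hle p3.summable
  refine ⟨φ, hφ, _, ?_, hsm.hasSum⟩
  have h4 := hasSum_le hle hsm.hasSum p3
  linarith

lemma dist_le (S : SV U u E) {k : ι} {φ ψ : V → ℝ} (hφ : Tst U φ) (hψ : Tst U ψ) {s t : ℝ}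
    (hs : HasSum (fun j => (1 + E j) * (∫ x, (φ x - u k x) * u j x) ^ 2) s)
    (ht : HasSum (fun j => (1 + E j) * (∫ x, (ψ x - u k x) * u j x) ^ 2) t) :
    ∫ x, ‖gradient φ x - gradient ψ x‖ ^ 2 ≤ 2 * s + 2 * t := by
  have p1 := S.form _ (tst_lc (tst_comb hφ hψ (-1)))
  have e1 : ∫ x, ‖fderiv ℝ (fun x => φ x + (-1) * ψ x) x‖ ^ 2 =
      ∫ x, ‖gradient φ x - gradient ψ x‖ ^ 2 := by
    congr 1
    funext x
    rw [← norm_grad, grad_comb hφ hψ (-1) x]
    congr 2
    module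
  rw [e1] at p1
  refine hasSum_le (fun j => ?_) p1 ((hs.mul_left 2).add (ht.mul_left 2))
  rw [coef_sub S (tst_memLp hφ) (S.mem k), coef_sub S (tst_memLp hψ) (S.mem k),
    coef_comb S (tst_memLp hφ) (tst_memLp hψ)]
  have h3 : ∀ a b c : ℝ, (a + -1 * b) ^ 2 ≤ 2 * ((a - c) ^ 2 + (b - c) ^ 2) := fun a b c => by
    nlinarith [sq_nonneg (a + b - 2 * c)]
  have h4 := h3 (∫ x, φ x * u j x) (∫ x, ψ x * u j x) (∫ x, u k x * u j x)
  have h5 := mul_le_mul_of_nonneg_left h4 (S.pos j)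
  have h6 : 0 ≤ ((∫ x, φ x * u j x) - ∫ x, u k x * u j x) ^ 2 := sq_nonneg _
  have h7 : 0 ≤ ((∫ x, ψ x * u j x) - ∫ x, u k x * u j x) ^ 2 := sq_nonneg _
  nlinarith

lemma dist_le2 (S : SV U u E) {k : ι} {φ : V → ℝ} (hφ : Tst U φ) {s : ℝ}
    (hs : HasSum (fun j => (1 + E j) * (∫ x, (φ x - u k x) * u j x) ^ 2) s) :
    ∫ x, (u k x - φ x) ^ 2 ≤ s := by
  have hm : MemLp (fun x => φ x - u k x) 2 := (tst_memLp hφ).sub (S.mem k)
  have p1 := S.pars _ hm fun x hx => by rw [tst_zero hφ hx, S.zero k x hx, sub_zero]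
  have e : ∫ x, (u k x - φ x) ^ 2 = ∫ x, (φ x - u k x) ^ 2 := by
    congr 1
    funext x
    ring
  rw [e]
  refine hasSum_le (fun j => ?_) p1 hs
  have := mul_nonneg (S.pos j) (sq_nonneg (∫ x, (φ x - u k x) * u j x))
  linarith

lemma weak_le (S : SV U u E) {k : ι} {φ ψ : V → ℝ} (hφ : Tst U φ) (hψ : Tst U ψ) {s : ℝ}
    (hs : HasSum (fun j => (1 + E j) * (∫ x, (φ x - u k x) * u j x) ^ 2) s) :
    ((∫ x, ⟪gradient φ x, gradient ψ x⟫_ℝ) - E k * ∫ x, u k x * ψ x) ^ 2 ≤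
      s * ∫ x, ‖gradient ψ x‖ ^ 2 := by
  classical
  have p1 := form2 S hφ hψ
  have p2 : HasSum (fun j => E j * ((∫ x, u k x * u j x) * ∫ x, ψ x * u j x))
      (E k * ∫ x, u k x * ψ x) := by
    have h1 : ∀ j, j ≠ k → E j * ((∫ x, u k x * u j x) * ∫ x, ψ x * u j x) = 0 := by
      intro j hj
      rw [S.orth k j hj.symm]
      ring
    have h2 := hasSum_single k h1
    rw [coef_self S, one_mul] at h2
    have e : ∫ x, ψ x * u k x = ∫ x, u k x * ψ x := by
      congr 1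
      funext x
      ring
    rwa [e] at h2
  have p3 := p1.sub p2
  have p4 : HasSum (fun j => E j * ((∫ x, (φ x - u k x) * u j x) * ∫ x, ψ x * u j x))
      ((∫ x, ⟪gradient φ x, gradient ψ x⟫_ℝ) - E k * ∫ x, u k x * ψ x) := by
    refine p3.congr_fun fun j => ?_
    rw [coef_sub S (tst_memLp hφ) (S.mem k)]
    ring
  have p5 := S.form _ (tst_lc hψ)
  have p6 : Summable fun j => E j * (∫ x, (φ x - u k x) * u j x) ^ 2 := by
    refine Summable.of_nonneg_of_le (fun j => mul_nonneg (S.pos j) (sq_nonneg _)) (fun j => ?_)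
      hs.summable
    have := sq_nonneg (∫ x, (φ x - u k x) * u j x)
    linarith
  have p7 := hasSum_cs S.pos p6.hasSum p5 p4
  refine p7.trans ?_
  have e : ∫ x, ‖fderiv ℝ ψ x‖ ^ 2 = ∫ x, ‖gradient ψ x‖ ^ 2 := by simp only [norm_grad]
  rw [e]
  apply mul_le_mul_of_nonneg_right _ (integral_nonneg fun x => by positivity)
  refine hasSum_le (fun j => ?_) p6.hasSum hs
  have := sq_nonneg (∫ x, (φ x - u k x) * u j x)
  linarith

end

end Pool.Agent.H98.BR
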