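import Pool.Agent.H98.BR.Conv

set_option autoImplicit false

/-!
# Counting classical eigenfunctions
-/

namespace Pool.Agent.H98.BR

open MeasureTheory Set Filter Topology
open Pool.Agent.Helper546 (V cV Tst lap dd ee)
open Pool.Agent.H417R2.CH (PC)
open scoped ContDiff InnerProductSpace

/-- there are `n` linearly independent classical eigenfunctions with eigenvalue `μ` -/
def HasN (U : Set V) (μ : ℝ) (n : ℕ) : Prop :=
  ∃ f : Fin n → V → ℝ, LinearIndependent ℝ f ∧
    ∀ k, Continuous (f k) ∧ ContDiffOn ℝ 2 (f k) U ∧ (∀ x, x ∉ U → f k x = 0) ∧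
      (∀ x ∈ U, (∑ i : Fin 2, iteratedFDeriv ℝ 2 (f k) x
        (fun _ => EuclideanSpace.single i (1 : ℝ))) + μ * f k x = 0)

section

variable {U : Set V} {μ : ℝ} {f g : V → ℝ}

lemma cl_iff (hU : IsOpen U) : Cl U μ f ↔ (Continuous f ∧ ContDiffOn ℝ 2 f U ∧
    (∀ x, x ∉ U → f x = 0) ∧ (∀ x ∈ U, (∑ i : Fin 2, iteratedFDeriv ℝ 2 f x
        (fun _ => EuclideanSpace.single i (1 : ℝ))) + μ * f x = 0)) := by
  constructor
  · rintro ⟨h1, h2, h3, h4⟩
    refine ⟨h1, h3, h2, fun x hx => ?_⟩
    rw [Pool.Agent.Helper546.sum_iteratedFDeriv_eq (h3.contDiffAt (hU.mem_nhds hx)), h4 x hx]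
    ring
  · rintro ⟨h1, h2, h3, h4⟩
    refine ⟨h1, h3, h2, fun x hx => ?_⟩
    have := h4 x hx
    rw [Pool.Agent.Helper546.sum_iteratedFDeriv_eq (h2.contDiffAt (hU.mem_nhds hx))] at this
    linarith

lemma Cl.zero_fn : Cl U μ (0 : V → ℝ) := by
  refine ⟨continuous_const, fun x _ => rfl, contDiffOn_const, fun x _ => ?_⟩
  have h1 : ∀ i : Fin 2, dd i (0 : V → ℝ) = fun _ => 0 := by
    intro i
    funext y
    simp [dd]
  have h2 : ∀ i : Fin 2, dd i (dd i (0 : V → ℝ)) x = 0 := by
    intro i
    rw [h1 i]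
    simp [dd]
  unfold lap
  rw [h2, h2]
  simp

lemma Cl.comb (hU : IsOpen U) (hf : Cl U μ f) (hg : Cl U μ g) (c : ℝ) :
    Cl U μ (f + c • g) := by
  refine ⟨hf.cont.add (hg.cont.const_smul c), fun x hx => ?_, hf.diff.add (hg.diff.const_smul c),
    fun x hx => ?_⟩
  · show f x + c * g x = 0
    rw [hf.zero x hx, hg.zero x hx, mul_zero, add_zero]
  · have h1 : ∀ i : Fin 2, dd i (f + c • g) =ᶠ[𝓝 x] fun y => dd i f y + c * dd i g y := by
      intro i
      filter_upwards [hU.mem_nhds hx] with y hy
      have a := f_diffAt hU hf hy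
      have b := f_diffAt hU hg hy
      unfold dd
      rw [fderiv_add a (b.const_smul c), fderiv_const_smul b]
      rfl
    have h2 : ∀ i : Fin 2, dd i (dd i (f + c • g)) x = dd i (dd i f) x + c * dd i (dd i g) x := by
      intro i
      show fderiv ℝ (dd i (f + c • g)) x (ee i) = _
      rw [(h1 i).fderiv_eq]
      have a := dd_f_diffAt hU hf hx i
      have b := dd_f_diffAt hU hg hx i
      rw [fderiv_fun_add a (b.const_mul c), fderiv_const_mul b]
      rfl
    unfold lap
    rw [h2, h2]
    have e1 := hf.pde x hx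
    have e2 := hg.pde x hx
    unfold lap at e1 e2
    show _ = -(μ * (f x + c * g x))
    linear_combination e1 + c * e2

lemma Cl.sum (hU : IsOpen U) {n : ℕ} {f : Fin n → V → ℝ} (hf : ∀ i, Cl U μ (f i)) (c : Fin n → ℝ)
    (s : Finset (Fin n)) : Cl U μ (∑ i ∈ s, c i • f i) := by
  classical
  induction s using Finset.induction_on with
  | empty =>
    rw [Finset.sum_empty]
    exact Cl.zero_fn
  | insert i s his ih =>
    rw [Finset.sum_insert his, add_comm]
    exact Cl.comb hU ih (hf i) (c i)

lemma Cl.eq_zero (hb : Bornology.IsBounded U) (hf : Cl U μ f) (h : ∫ x, f x ^ 2 = 0) : f = 0 := by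
  have h1 := (integral_eq_zero_iff_of_nonneg (fun x => sq_nonneg _) (hf.memLp hb).integrable_sq).1 h
  have h2 : (fun x => f x ^ 2) = fun _ => 0 :=
    (Continuous.ae_eq_iff_eq volume (hf.cont.pow 2) continuous_const).1 h1
  funext x
  have := congrFun h2 x
  exact pow_eq_zero_iff two_ne_zero |>.1 this

variable {ι : Type} {u : ι → V → ℝ} {E : ι → ℝ}

theorem hasN_of_emb (hU : PC U) (S : SV U u E) {n : ℕ} {g : Fin n → ι}
    (hg : Function.Injective g) (hgE : ∀ i, E (g i) = μ) : HasN U μ n := by
  classical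
  choose w hw hwu using fun k => rep hU S k
  refine ⟨fun i => w (g i), ?_, fun i => (cl_iff hU.isOpen).1 (by
    rw [← hgE i]
    exact hw (g i))⟩
  rw [Fintype.linearIndependent_iff]
  intro c hc j
  have h1 : ∫ x, (∑ i, c i • w (g i)) x * u (g j) x = 0 := by
    rw [hc]
    simp
  have hm : ∀ i, MemLp (w (g i)) 2 := fun i => (hw (g i)).memLp hU.bdd
  have h2 : ∫ x, (∑ i, c i • w (g i)) x * u (g j) x =
      ∑ i, c i * ∫ x, w (g i) x * u (g j) x := by
    have e : (fun x => (∑ i, c i • w (g i)) x * u (g j) x) =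
        fun x => ∑ i, c i * (w (g i) x * u (g j) x) := by
      funext x
      rw [Finset.sum_apply, Finset.sum_mul]
      exact Finset.sum_congr rfl fun i _ => by simp [mul_assoc]
    rw [e, integral_finsetSum _ fun i _ => (int_mul (hm i) (S.mem (g j))).const_mul _]
    exact Finset.sum_congr rfl fun i _ => integral_const_mul _ _
  have h3 : ∀ i, ∫ x, w (g i) x * u (g j) x = if i = j then 1 else 0 := by
    intro i
    have e : ∫ x, w (g i) x * u (g j) x = ∫ x, u (g i) x * u (g j) x := by
      refine integral_congr_ae ?_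
      filter_upwards [hwu (g i)] with x hx
      rw [hx]
    rw [e, coef_delta S (g i) (g j)]
    by_cases hij : i = j
    · rw [if_pos (by rw [hij]), if_pos hij]
    · rw [if_neg (fun h => hij (hg h.symm)), if_neg hij]
  rw [h2] at h1
  simpa [h3] using h1

theorem emb_of_hasN (hU : PC U) (S : SV U u E) {n : ℕ} (h : HasN U μ n) :
    ∃ g : Fin n → ι, Function.Injective g ∧ ∀ i, E (g i) = μ := by
  classical
  obtain ⟨f, hli, hf⟩ := h
  have hf : ∀ i, Cl U μ (f i) := fun i => (cl_iff hU.isOpen).2 (hf i)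
  by_cases hfin : Finite {k // E k = μ}
  · have := Fintype.ofFinite {k // E k = μ}
    have hle : n ≤ Fintype.card {k // E k = μ} := by
      by_contra hlt
      rw [not_le] at hlt
      let L : (Fin n → ℝ) →ₗ[ℝ] ({k // E k = μ} → ℝ) :=
        { toFun := fun c k => ∑ i, c i * ∫ x, f i x * u k x
          map_add' := fun c d => by
            funext k
            simp only [Pi.add_apply, add_mul, Finset.sum_add_distrib]
          map_smul' := fun a c => by
            funext k
            simp only [Pi.smul_apply, smul_eq_mul, RingHom.id_apply, Finset.mul_sum, mul_assoc] }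
      have hk : LinearMap.ker L ≠ ⊥ := by
        apply LinearMap.ker_ne_bot_of_finrank_lt
        rw [Module.finrank_fintype_fun_eq_card, Module.finrank_fintype_fun_eq_card,
          Fintype.card_fin]
        exact hlt
      obtain ⟨c, hcL, hc0⟩ := (Submodule.ne_bot_iff _).1 hk
      have hcl := Cl.sum hU.isOpen hf c Finset.univ
      have hm := hcl.memLp hU.bdd
      have hcoef : ∀ k, ∫ x, (∑ i, c i • f i) x * u k x = ∑ i, c i * ∫ x, f i x * u k x := by
        intro k
        have e : (fun x => (∑ i, c i • f i) x * u k x) = fun x => ∑ i, c i * (f i x * u k x) := by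
          funext x
          rw [Finset.sum_apply, Finset.sum_mul]
          exact Finset.sum_congr rfl fun i _ => by simp [mul_assoc]
        rw [e, integral_finsetSum _ fun i _ =>
          (int_mul ((hf i).memLp hU.bdd) (S.mem k)).const_mul _]
        exact Finset.sum_congr rfl fun i _ => integral_const_mul _ _
      have hz : ∀ k, ∫ x, (∑ i, c i • f i) x * u k x = 0 := by
        intro k
        by_cases hkμ : E k = μ
        · rw [hcoef k]
          have h1 : L c = 0 := LinearMap.mem_ker.1 hcL
          exact congrFun h1 ⟨k, hkμ⟩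
        · exact coef_zero hU.isOpen hU.bdd S hcl hkμ
      have hp := S.pars _ hm hcl.zero
      simp only [hz] at hp
      have h0 : ∫ x, (∑ i, c i • f i) x ^ 2 = 0 := by
        have h1 : HasSum (fun _ : ι => (0 : ℝ) ^ 2) 0 := by
          simp
        exact hp.unique h1
      have h1 := Cl.eq_zero hU.bdd hcl h0
      exact hc0 (funext fun i => Fintype.linearIndependent_iff.1 hli c h1 i)
    have hcard : Fintype.card (Fin n) ≤ Fintype.card {k // E k = μ} := by
      rwa [Fintype.card_fin]
    obtain ⟨e⟩ := Function.Embedding.nonempty_of_card_le hcard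
    exact ⟨fun i => (e i).1, fun i j hij => e.injective (Subtype.ext hij), fun i => (e i).2⟩
  · have : Infinite {k // E k = μ} := not_finite_iff_infinite.1 hfin
    let e := Infinite.natEmbedding {k // E k = μ}
    exact ⟨fun i => (e i.1).1, fun i j hij => Fin.ext (e.injective (Subtype.ext hij)),
      fun i => (e i.1).2⟩

theorem hasN_iff (hU : PC U) (S : SV U u E) (μ : ℝ) (n : ℕ) :
    HasN U μ n ↔ ∃ g : Fin n → ι, Function.Injective g ∧ ∀ i, E (g i) = μ :=
  ⟨emb_of_hasN hU S, fun ⟨_, h1, h2⟩ => hasN_of_emb hU S h1 h2⟩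

end

/-- systems with the same numbers of classical eigenfunctions have the same eigenvalues -/
theorem exists_equiv {ι κ : Type} {E : ι → ℝ} {F : κ → ℝ}
    (hE : ∀ μ, Finite {k // E k = μ}) (hF : ∀ μ, Finite {k // F k = μ})
    (h : ∀ (μ : ℝ) (n : ℕ), (∃ g : Fin n → ι, Function.Injective g ∧ ∀ i, E (g i) = μ) ↔
      ∃ g : Fin n → κ, Function.Injective g ∧ ∀ i, F (g i) = μ) :
    ∃ e : ι ≃ κ, ∀ k, F (e k) = E k := by
  classical
  have key : ∀ {α β : Type} {A : α → ℝ} {B : β → ℝ} (_ : ∀ μ, Finite {k // A k = μ})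
      (_ : ∀ μ, Finite {k // B k = μ}) (μ : ℝ)
      (_ : ∀ n : ℕ, (∃ g : Fin n → α, Function.Injective g ∧ ∀ i, A (g i) = μ) →
        ∃ g : Fin n → β, Function.Injective g ∧ ∀ i, B (g i) = μ),
      Nat.card {k // A k = μ} ≤ Nat.card {k // B k = μ} := by
    intro α β A B hA hB μ h
    have := hA μ
    have := hB μ
    obtain ⟨g, hg, hgB⟩ := h (Nat.card {k // A k = μ})
      ⟨fun i => ((Finite.equivFin {k // A k = μ}).symm i).1,
        fun i j hij => (Finite.equivFin {k // A k = μ}).symm.injective (Subtype.ext hij),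
        fun i => ((Finite.equivFin {k // A k = μ}).symm i).2⟩
    have h1 : Function.Injective fun i => (⟨g i, hgB i⟩ : {k // B k = μ}) := fun i j hij =>
      hg (congrArg Subtype.val hij)
    have h2 := Nat.card_le_card_of_injective _ h1
    rwa [Nat.card_fin] at h2
  have heq : ∀ μ, Nonempty ({k // E k = μ} ≃ {k // F k = μ}) := by
    intro μ
    have := hE μ
    have := hF μ
    have h1 := key hE hF μ fun n => (h μ n).1
    have h2 := key hF hE μ fun n => (h μ n).2
    have h3 := le_antisymm h1 h2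
    exact ⟨(Finite.equivFin _).trans ((finCongr h3).trans (Finite.equivFin _).symm)⟩
  exact ⟨Equiv.ofFiberEquiv fun μ => (heq μ).some, fun k => Equiv.ofFiberEquiv_map _ k⟩

end Pool.Agent.H98.BR
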