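import Pool.Agent.H98.BR.Tr

set_option autoImplicit false

/-!
# Classical eigenfunctions have no components for other eigenvalues
-/

namespace Pool.Agent.H98.BR

open MeasureTheory Set Filter Topology
open Pool.Agent.Helper546 (V cV Tst lap dd ee)
open scoped ContDiff InnerProductSpace

/-! ## Integration by parts -/

section

variable {U : Set V}

theorem ibp1 (hU : IsOpen U) {f g : V → ℝ} (i : Fin 2) (hf : ContDiffOn ℝ 1 f U) (hg : Tst U g) :
    ∫ x, f x * dd i g x = - ∫ x, dd i f x * g x := by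
  have hg' := hg.dd i
  have hdf : ContinuousOn (dd i f) U :=
    (hf.continuousOn_fderiv_of_isOpen hU (by norm_num)).clm_apply continuousOn_const
  refine integral_mul_fderiv_eq_neg_fderiv_mul_of_integrable (v := ee i) ?_ ?_ ?_ ?_ ?_
  · exact Pool.Agent.Helper546.integrable_mul_of_tsupport hU hdf hg.1.continuous hg.2.2 hg.2.1
  · exact Pool.Agent.Helper546.integrable_mul_of_tsupport hU hf.continuousOn hg'.1.continuous
      hg'.2.2 hg'.2.1
  · exact Pool.Agent.Helper546.integrable_mul_of_tsupport hU hf.continuousOn hg.1.continuous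
      hg.2.2 hg.2.1
  · intro x hx
    exact (hf.contDiffAt (hU.mem_nhds (hg.2.2 hx))).differentiableAt (by norm_num)
  · intro x _
    exact hg.1.differentiable (by simp) x

theorem dd_diffOn (hU : IsOpen U) {f : V → ℝ} (i : Fin 2) (hf : ContDiffOn ℝ 2 f U) :
    ContDiffOn ℝ 1 (dd i f) U :=
  (hf.fderiv_of_isOpen hU (m := 1) (by norm_num)).clm_apply contDiffOn_const

theorem ibp2 (hU : IsOpen U) {f g : V → ℝ} (hf : ContDiffOn ℝ 2 f U) (hg : Tst U g) :
    ∫ x, f x * lap g x = ∫ x, lap f x * g x := by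
  have hf1 : ContDiffOn ℝ 1 f U := hf.of_le (by norm_num)
  have key : ∀ i : Fin 2, ∫ x, f x * dd i (dd i g) x = ∫ x, dd i (dd i f) x * g x := by
    intro i
    rw [ibp1 hU i hf1 (hg.dd i), ibp1 hU i (dd_diffOn hU i hf) hg, neg_neg]
  have i1 : ∀ i : Fin 2, Integrable (fun x => f x * dd i (dd i g) x) := fun i =>
    Pool.Agent.Helper546.integrable_mul_of_tsupport hU hf.continuousOn
      ((hg.dd i).dd i).1.continuous ((hg.dd i).dd i).2.2 ((hg.dd i).dd i).2.1
  have i2 : ∀ i : Fin 2, Integrable (fun x => dd i (dd i f) x * g x) := fun i =>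
    Pool.Agent.Helper546.integrable_mul_of_tsupport hU
      (((dd_diffOn hU i hf).continuousOn_fderiv_of_isOpen hU (by norm_num)).clm_apply
        continuousOn_const) hg.1.continuous hg.2.2 hg.2.1
  simp only [lap, mul_add, add_mul]
  rw [integral_add (i1 0) (i1 1), integral_add (i2 0) (i2 1), key, key]

/-- the integral of the Laplacian of a function with compact support -/
theorem int_lap {g : V → ℝ} (hg : ContDiff ℝ 2 g) (hc : HasCompactSupport g) :
    Continuous (lap g) ∧ HasCompactSupport (lap g) ∧ ∫ x, lap g x = 0 := by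
  have h1 : ∀ i, ContDiff ℝ 1 (dd i g) := fun i =>
    (hg.fderiv_right (m := 1) (by norm_num)).clm_apply contDiff_const
  have h2 : ∀ i, Continuous (dd i (dd i g)) := fun i =>
    ((h1 i).continuous_fderiv (by norm_num)).clm_apply continuous_const
  have s1 : ∀ i, HasCompactSupport (dd i g) := fun i => Pool.Agent.Helper546.hasCompactSupport_dd i hc
  have s2 : ∀ i, HasCompactSupport (dd i (dd i g)) := fun i =>
    Pool.Agent.Helper546.hasCompactSupport_dd i (s1 i)
  have h3 : ∀ i, ∫ x, dd i (dd i g) x = 0 := by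
    intro i
    have h4 := integral_mul_fderiv_eq_neg_fderiv_mul_of_integrable (μ := (volume : Measure V))
      (f := fun _ => (1 : ℝ)) (g := dd i g) (v := ee i) (by simp) (by
        simp only [one_mul]
        exact (h2 i).integrable_of_hasCompactSupport (s2 i)) (by
        simp only [one_mul]
        exact (h1 i).continuous.integrable_of_hasCompactSupport (s1 i))
        (fun x _ => differentiableAt_const _) (fun x _ => (h1 i).differentiable (by norm_num) x)
    simp only [one_mul, fderiv_const_apply, zero_apply, zero_mul,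
      integral_zero, neg_zero] at h4
    exact h4
  refine ⟨(h2 0).add (h2 1), (s2 0).add (s2 1), ?_⟩
  unfold lap
  rw [integral_add ((h2 0).integrable_of_hasCompactSupport (s2 0))
    ((h2 1).integrable_of_hasCompactSupport (s2 1)), h3, h3, add_zero]

end

/-! ## The energy of a classical eigenfunction -/

section

variable {U : Set V} {μ : ℝ} {f : V → ℝ}

lemma Cl.supp (hb : Bornology.IsBounded U) (hf : Cl U μ f) : HasCompactSupport f := by
  have hcl : IsCompact (closure U) := hb.isCompact_closure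
  exact HasCompactSupport.intro hcl fun x hx => hf.zero x fun h => hx (subset_closure h)

lemma Cl.memLp (hb : Bornology.IsBounded U) (hf : Cl U μ f) : MemLp f 2 :=
  hf.cont.memLp_of_hasCompactSupport (hf.supp hb)

lemma trunc_lc (hU : IsOpen U) (hb : Bornology.IsBounded U) (hf : Cl U μ f) {ε : ℝ} (hε : 0 < ε) :
    (fun x => TT ε (f x)) ∈ LcV U := by
  have h1 := comp_supp hb hf hε (g := TT ε) fun s hs => TT_zero hε hs
  have h2 : ContDiff ℝ 1 (fun x => TT ε (f x)) :=
    comp_diff hU hf hε (n := 1) (fun s hs => TT_zero hε hs) (by norm_num) (TT_diff ε)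
  exact ⟨ContDiff.lipschitzWith_of_hasCompactSupport h1.1 h2 (by norm_num), h1.1,
    h1.2.trans (big_sub hf hε)⟩

/-- the energy of the truncations is bounded -/
lemma trunc_en (hU : IsOpen U) (hb : Bornology.IsBounded U) (hf : Cl U μ f) {ε : ℝ} (hε : 0 < ε) :
    ∫ x, ‖fderiv ℝ (fun x => TT ε (f x)) x‖ ^ 2 ≤ |μ| * ∫ x, f x ^ 2 := by
  have hH : ContDiff ℝ 2 (fun x => HH ε (f x)) :=
    comp_diff hU hf hε (n := 2) (fun s hs => HH_zero hε hs) le_rfl (HH_diff ε)
  obtain ⟨c1, c2, c3⟩ := int_lap hH (comp_supp hb hf hε (g := HH ε) fun s hs => HH_zero hε hs).1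
  have hT := trunc_lc hU hb hf hε
  have i1 : Integrable fun x => TT ε (f x) * f x :=
    ((TT_cont ε).comp hf.cont |>.mul hf.cont).integrable_of_hasCompactSupport
      ((hf.supp hb).mul_left)
  have i2 : Integrable fun x => lap (fun x => HH ε (f x)) x := c1.integrable_of_hasCompactSupport c2
  have e1 : ∀ x, tr ε (f x) * ‖fderiv ℝ f x‖ ^ 2 =
      lap (fun x => HH ε (f x)) x + μ * (TT ε (f x) * f x) := fun x => by
    rw [lap_HH hU hf hε x]
    ring
  have i3 : Integrable fun x => tr ε (f x) * ‖fderiv ℝ f x‖ ^ 2 := by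
    simp only [e1]
    exact i2.add (i1.const_mul μ)
  have e2 : ∫ x, tr ε (f x) * ‖fderiv ℝ f x‖ ^ 2 = μ * ∫ x, TT ε (f x) * f x := by
    simp only [e1]
    rw [integral_add i2 (i1.const_mul μ), c3, zero_add, integral_const_mul]
  have i4 : Integrable fun x => f x ^ 2 := (hf.memLp hb).integrable_sq
  have h1 : ∫ x, ‖fderiv ℝ (fun x => TT ε (f x)) x‖ ^ 2 ≤
      ∫ x, tr ε (f x) * ‖fderiv ℝ f x‖ ^ 2 := by
    refine integral_mono_of_nonneg (ae_of_all _ fun x => by positivity) i3
      (ae_of_all _ fun x => ?_)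
    show ‖fderiv ℝ (fun x => TT ε (f x)) x‖ ^ 2 ≤ tr ε (f x) * ‖fderiv ℝ f x‖ ^ 2
    by_cases hx : x ∈ U
    · have h2 : fderiv ℝ (fun x => TT ε (f x)) x = tr ε (f x) • fderiv ℝ f x :=
        ((TT_deriv ε (f x)).comp_hasFDerivAt x (f_diffAt hU hf hx).hasFDerivAt).fderiv
      rw [h2, norm_smul, mul_pow, Real.norm_eq_abs, sq_abs]
      have h3 := tr_nonneg ε (f x)
      have h4 := tr_le_one ε (f x)
      have h5 : tr ε (f x) ^ 2 ≤ tr ε (f x) := by nlinarith
      exact mul_le_mul_of_nonneg_right h5 (by positivity)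
    · have h2 := Filter.EventuallyEq.fderiv_eq (𝕜 := ℝ)
        (comp_near hU hf hε (g := TT ε) (fun s hs => TT_zero hε hs) hx)
      rw [h2, fderiv_const_apply, norm_zero, zero_pow two_ne_zero]
      exact mul_nonneg (tr_nonneg _ _) (by positivity)
  have h2 : |∫ x, TT ε (f x) * f x| ≤ ∫ x, f x ^ 2 := by
    refine (abs_integral_le_integral_abs).trans (integral_mono i1.abs i4 fun x => ?_)
    show |TT ε (f x) * f x| ≤ f x ^ 2
    rw [abs_mul, ← sq_abs, sq]
    exact mul_le_mul_of_nonneg_right (TT_le ε (f x)) (abs_nonneg _)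
  calc _ ≤ _ := h1
    _ = μ * ∫ x, TT ε (f x) * f x := e2
    _ ≤ |μ * ∫ x, TT ε (f x) * f x| := le_abs_self _
    _ = |μ| * |∫ x, TT ε (f x) * f x| := abs_mul _ _
    _ ≤ |μ| * ∫ x, f x ^ 2 := mul_le_mul_of_nonneg_left h2 (abs_nonneg μ)

variable {ι : Type} {u : ι → V → ℝ} {E : ι → ℝ}

/-- classical eigenfunctions have finite energy -/
lemma energy (hU : IsOpen U) (hb : Bornology.IsBounded U) (S : SV U u E) (hf : Cl U μ f) :
    Summable fun j => E j * (∫ x, f x * u j x) ^ 2 := by
  have ht : ∀ j, Tendsto (fun n : ℕ => ∫ x, TT (1 / ((n : ℝ) + 1)) (f x) * u j x) atTop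
      (𝓝 (∫ x, f x * u j x)) := by
    intro j
    have hint := int_mul (hf.memLp hb) (S.mem j)
    refine tendsto_integral_of_dominated_convergence (fun x => ‖f x * u j x‖) (fun n => ?_)
      hint.norm (fun n => ae_of_all _ fun x => ?_) (ae_of_all _ fun x => ?_)
    · exact ((TT_cont _).comp hf.cont).aestronglyMeasurable.mul (S.mem j).1
    · rw [norm_mul, norm_mul]
      exact mul_le_mul_of_nonneg_right (TT_le _ _) (norm_nonneg _)
    · refine Tendsto.mul_const _ ?_
      rw [tendsto_iff_norm_sub_tendsto_zero]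
      have h1 : Tendsto (fun n : ℕ => 2 * (1 / ((n : ℝ) + 1))) atTop (𝓝 0) := by
        have := tendsto_one_div_add_atTop_nhds_zero_nat.const_mul (2 : ℝ)
        rwa [mul_zero] at this
      exact squeeze_zero (fun n => norm_nonneg _) (fun n => TT_near (by positivity) _) h1
  refine summable_of_sum_le (fun j => mul_nonneg (S.pos j) (sq_nonneg _))
    (c := |μ| * ∫ x, f x ^ 2) fun s => ?_
  refine le_of_tendsto (tendsto_finsetSum s fun j _ => ((ht j).pow 2).const_mul (E j)) ?_
  filter_upwards with n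
  have hε : (0 : ℝ) < 1 / ((n : ℝ) + 1) := by positivity
  exact (sum_le_hasSum s (fun j _ => mul_nonneg (S.pos j) (sq_nonneg _))
    (S.form _ (trunc_lc hU hb hf hε))).trans (trunc_en hU hb hf hε)

/-- the weak equation of the eigenfunctions -/
lemma weak_u (hU : IsOpen U) (S : SV U u E) (k : ι) {ψ : V → ℝ} (hψ : Tst U ψ) :
    ∫ x, lap ψ x * u k x = -(E k * ∫ x, ψ x * u k x) := by
  obtain ⟨G, hH, hw⟩ := exists_H10 hU S k
  have h := Pool.Agent.H417R2.CH.REGW.weak hH hw ψ hψ
  have hl : MemLp (lap ψ) 2 := ((tst_memLp ((hψ.dd 0).dd 0)).add (tst_memLp ((hψ.dd 1).dd 1)))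
  have i1 := int_mul hl (S.mem k)
  have i2 := (int_mul (tst_memLp hψ) (S.mem k)).const_mul (E k)
  have e : ∫ x, u k x * (lap ψ x + E k * ψ x) =
      (∫ x, lap ψ x * u k x) + E k * ∫ x, ψ x * u k x := by
    rw [← integral_const_mul, ← integral_add i1 i2]
    congr 1
    funext x
    ring
  rw [e] at h
  linarith

/-- **classical eigenfunctions have no components for other eigenvalues** -/
theorem coef_zero (hU : IsOpen U) (hb : Bornology.IsBounded U) (S : SV U u E) (hf : Cl U μ f)
    {k : ι} (hk : E k ≠ μ) : ∫ x, f x * u k x = 0 := by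
  have hm := hf.memLp hb
  have hen := energy hU hb S hf
  have hpf := (S.pars f hm hf.zero).summable
  -- the identity for test functions
  have hid : ∀ ψ, Tst U ψ →
      HasSum (fun j => (E j - μ) * ((∫ x, f x * u j x) * ∫ x, ψ x * u j x)) 0 := by
    intro ψ hψ
    have hl : MemLp (lap ψ) 2 := ((tst_memLp ((hψ.dd 0).dd 0)).add (tst_memLp ((hψ.dd 1).dd 1)))
    have hl0 : ∀ x, x ∉ U → lap ψ x = 0 := fun x hx => by
      unfold lap
      rw [tst_zero ((hψ.dd 0).dd 0) hx, tst_zero ((hψ.dd 1).dd 1) hx, add_zero]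
    have h1 := pars2 S hm hl hf.zero hl0
    have h2 := (pars2 S hm (tst_memLp hψ) hf.zero fun x hx => tst_zero hψ hx).mul_left μ
    have h3 := (h1.add h2).neg
    have e1 : ∫ x, f x * lap ψ x = -(μ * ∫ x, f x * ψ x) := by
      rw [ibp2 hU hf.diff hψ, ← integral_const_mul, ← integral_neg]
      congr 1
      funext x
      by_cases hx : x ∈ U
      · rw [hf.pde x hx]
        ring
      · rw [tst_zero hψ hx]
        ring
    rw [e1] at h3
    have e2 : -(-(μ * ∫ x, f x * ψ x) + μ * ∫ x, f x * ψ x) = 0 := by ring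
    rw [e2] at h3
    refine h3.congr_fun fun j => ?_
    rw [weak_u hU S j hψ]
    ring
  -- approximate the eigenfunction
  have hc : ∀ j, 0 < 1 + E j := fun j => by linarith [S.pos j]
  set B : ℝ := (1 + |μ|) ^ 2 * ((∑' j, (∫ x, f x * u j x) ^ 2) +
    ∑' j, E j * (∫ x, f x * u j x) ^ 2) with hB
  have hA : HasSum (fun j => (1 + |μ|) ^ 2 * ((∫ x, f x * u j x) ^ 2 +
      E j * (∫ x, f x * u j x) ^ 2)) B := (hpf.hasSum.add hen.hasSum).mul_left _
  have hle : ∀ j, (1 + E j) * ((E j - μ) / (1 + E j) * ∫ x, f x * u j x) ^ 2 ≤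
      (1 + |μ|) ^ 2 * ((∫ x, f x * u j x) ^ 2 + E j * (∫ x, f x * u j x) ^ 2) := by
    intro j
    have h1 := hc j
    have h2 : |E j - μ| ≤ (1 + |μ|) * (1 + E j) := by
      have h3 := abs_sub (E j) μ
      have h4 : |E j| = E j := abs_of_nonneg (S.pos j)
      have h5 := abs_nonneg μ
      have h6 := S.pos j
      nlinarith
    have h3 : (E j - μ) ^ 2 ≤ ((1 + |μ|) * (1 + E j)) ^ 2 := by
      rw [← sq_abs (E j - μ)]
      exact pow_le_pow_left₀ (abs_nonneg _) h2 2
    have h4 : (1 + E j) * ((E j - μ) / (1 + E j) * ∫ x, f x * u j x) ^ 2 =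
        (E j - μ) ^ 2 / (1 + E j) * (∫ x, f x * u j x) ^ 2 := by
      field_simp
    have h5 : (E j - μ) ^ 2 / (1 + E j) ≤ (1 + |μ|) ^ 2 * (1 + E j) := by
      rw [div_le_iff₀ h1]
      refine h3.trans (le_of_eq ?_)
      ring
    rw [h4]
    refine (mul_le_mul_of_nonneg_right h5 (sq_nonneg _)).trans (le_of_eq ?_)
    ring
  have hAs : Summable fun j => (1 + E j) * ((E j - μ) / (1 + E j) * ∫ x, f x * u j x) ^ 2 :=
    Summable.of_nonneg_of_le (fun j => mul_nonneg (hc j).le (sq_nonneg _)) hle hA.summable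
  have hAB := hasSum_le hle hAs.hasSum hA
  have key : ∀ ε : ℝ, 0 < ε → ((E k - μ) * ∫ x, f x * u k x) ^ 2 ≤ B * ε := by
    intro ε hε
    obtain ⟨φ, hφ, s, hs, hsum⟩ := core_tst hU S k hε
    have h1 := hid φ hφ
    have h2 : HasSum (fun j => (E j - μ) * ((∫ x, f x * u j x) * ∫ x, u k x * u j x))
        ((E k - μ) * ∫ x, f x * u k x) := by
      have h3 : ∀ j, j ≠ k → (E j - μ) * ((∫ x, f x * u j x) * ∫ x, u k x * u j x) = 0 := by
        intro j hj
        rw [S.orth k j hj.symm]
        ring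
      have h4 := hasSum_single k h3
      rwa [coef_self S, mul_one] at h4
    have h3 : HasSum (fun j => (1 + E j) * (((E j - μ) / (1 + E j) * ∫ x, f x * u j x) *
        ∫ x, (φ x - u k x) * u j x)) (0 - (E k - μ) * ∫ x, f x * u k x) := by
      refine (h1.sub h2).congr_fun fun j => ?_
      rw [coef_sub S (tst_memLp hφ) (S.mem k)]
      have := (hc j).ne'
      field_simp
    have h4 := hasSum_cs (fun j => (hc j).le) hAs.hasSum hsum h3
    have h5 : (0 - (E k - μ) * ∫ x, f x * u k x) ^ 2 = ((E k - μ) * ∫ x, f x * u k x) ^ 2 := by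
      ring
    rw [h5] at h4
    have hs0 : 0 ≤ s := hsum.nonneg fun j => mul_nonneg (hc j).le (sq_nonneg _)
    have hB0 : 0 ≤ B := (tsum_nonneg fun j => mul_nonneg (hc j).le (sq_nonneg _)).trans hAB
    exact h4.trans (mul_le_mul hAB hs.le hs0 hB0)
  have h0 : ((E k - μ) * ∫ x, f x * u k x) ^ 2 ≤ 0 := by
    have h1 : Tendsto (fun ε : ℝ => B * ε) (𝓝[>] 0) (𝓝 (B * 0)) :=
      (tendsto_nhdsWithin_of_tendsto_nhds tendsto_id).const_mul B
    rw [mul_zero] at h1
    exact ge_of_tendsto h1 (by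
      filter_upwards [self_mem_nhdsWithin] with ε hε
      exact key ε hε)
  have h1 : (E k - μ) * ∫ x, f x * u k x = 0 := by
    have := le_antisymm h0 (sq_nonneg _)
    exact pow_eq_zero_iff two_ne_zero |>.1 this
  exact (mul_eq_zero.1 h1).resolve_left (sub_ne_zero.2 hk)

end

end Pool.Agent.H98.BR
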