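import Pool.Agent.H98.BR.Geo

set_option autoImplicit false

/-!
# The bridge to the frozen statement of MP_2805c2_an
-/

namespace Pool.Agent.H98.BR

open MeasureTheory Set Filter Topology
open Pool.Agent.Helper546 (V cV)
open Pool.Agent.W780.PG (IsConvexPolygon region)
open Pool.Agent.W703.GP (Isospectral)

lemma hull_cV (S : Set V) : cV.symm '' convexHull ℝ S = convexHull ℝ (cV.symm '' S) :=
  cV.symm.toLinearEquiv.toLinearMap.image_convexHull S

lemma hull_cV' (S : Set ℂ) : cV '' convexHull ℝ S = convexHull ℝ (cV '' S) :=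
  cV.toLinearEquiv.toLinearMap.image_convexHull S

/-- the polygon of four points in convex position -/
theorem poly {p : Fin 4 → V} (h : ∀ i, p i ∉ convexHull ℝ (p '' {j | j ≠ i})) :
    ∃ q : Fin (1 + 3) → ℂ, IsConvexPolygon q ∧
      cV.symm ⁻¹' region q = interior (convexHull ℝ (range p)) ∧
      cV '' closure (region q) = convexHull ℝ (range p) := by
  obtain ⟨q, hq, hr, hrg⟩ := verts (p := fun i => cV.symm (p i)) (by
    intro i hi
    apply h i
    have e : (fun i => cV.symm (p i)) '' {j | j ≠ i} = cV.symm '' (p '' {j | j ≠ i}) := by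
      rw [image_image]
    rw [e, ← hull_cV] at hi
    obtain ⟨x, hx, hxe⟩ := hi
    have : x = p i := cV.symm.injective hxe
    rwa [← this])
  have e1 : range (fun i => cV.symm (p i)) = cV.symm '' range p := by
    rw [← range_comp]
    rfl
  have e2 : cV '' range (fun i => cV.symm (p i)) = range p := by
    rw [← range_comp]
    congr 1
    funext i
    exact cV.apply_symm_apply (p i)
  refine ⟨q, hq, ?_, ?_⟩
  · rw [hr, e1, ← hull_cV]
    have e3 : cV.symm '' convexHull ℝ (range p) = cV ⁻¹' convexHull ℝ (range p) := by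
      rw [LinearIsometryEquiv.image_eq_preimage_symm, LinearIsometryEquiv.symm_symm]
    rw [e3]
    have e4 : interior (cV ⁻¹' convexHull ℝ (range p)) = cV ⁻¹' interior (convexHull ℝ (range p)) :=
      (cV.toHomeomorph.preimage_interior _).symm
    rw [e4]
    ext x
    simp
  · rw [hull_region hq, hrg, hull_cV', e2]

/-- the frozen statement follows from the theorem on lists of vertices -/
theorem frozen_of (hmain : ∀ p q : Fin (1 + 3) → ℂ, IsConvexPolygon p → IsConvexPolygon q →
      Isospectral (region p) (region q) → ∃ e : ℂ ≃ᵢ ℂ, e '' region p = region q) :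
    ∀ p q : Fin 4 → EuclideanSpace ℝ (Fin 2),
      (∀ i, p i ∉ convexHull ℝ (p '' {j | j ≠ i})) →
      (∀ i, q i ∉ convexHull ℝ (q '' {j | j ≠ i})) →
      (∀ (μ : ℝ) (n : ℕ),
        (∃ f : Fin n → EuclideanSpace ℝ (Fin 2) → ℝ, LinearIndependent ℝ f ∧
          ∀ k, Continuous (f k) ∧
            ContDiffOn ℝ 2 (f k) (interior (convexHull ℝ (Set.range p))) ∧
            (∀ x, x ∉ interior (convexHull ℝ (Set.range p)) → f k x = 0) ∧
            (∀ x ∈ interior (convexHull ℝ (Set.range p)),
              (∑ i : Fin 2, iteratedFDeriv ℝ 2 (f k) x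
                  (fun _ => EuclideanSpace.single i (1 : ℝ))) + μ * f k x = 0))
        ↔
        (∃ f : Fin n → EuclideanSpace ℝ (Fin 2) → ℝ, LinearIndependent ℝ f ∧
          ∀ k, Continuous (f k) ∧
            ContDiffOn ℝ 2 (f k) (interior (convexHull ℝ (Set.range q))) ∧
            (∀ x, x ∉ interior (convexHull ℝ (Set.range q)) → f k x = 0) ∧
            (∀ x ∈ interior (convexHull ℝ (Set.range q)),
              (∑ i : Fin 2, iteratedFDeriv ℝ 2 (f k) x
                  (fun _ => EuclideanSpace.single i (1 : ℝ))) + μ * f k x = 0))) →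
      ∃ e : EuclideanSpace ℝ (Fin 2) ≃ᵢ EuclideanSpace ℝ (Fin 2),
        e '' convexHull ℝ (Set.range p) = convexHull ℝ (Set.range q) := by
  intro p q hp hq h
  obtain ⟨p', hp', hp1, hp2⟩ := poly hp
  obtain ⟨q', hq', hq1, hq2⟩ := poly hq
  have hiso : Isospectral (region p') (region q') := by
    refine bridge hp' hq' fun μ n => ?_
    rw [hp1, hq1]
    exact h μ n
  obtain ⟨e, he⟩ := hmain p' q' hp' hq' hiso
  refine ⟨(cV.symm.toIsometryEquiv.trans e).trans cV.toIsometryEquiv, ?_⟩
  have h1 : e '' closure (region p') = closure (region q') := by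
    rw [← he]
    exact e.toHomeomorph.image_closure _
  rw [← hp2, ← hq2, ← h1]
  ext y
  constructor
  · rintro ⟨_, ⟨x, hx, rfl⟩, rfl⟩
    exact ⟨e x, ⟨x, hx, rfl⟩, by simp⟩
  · rintro ⟨_, ⟨x, hx, rfl⟩, rfl⟩
    exact ⟨cV x, ⟨x, hx, rfl⟩, by simp⟩

end Pool.Agent.H98.BR
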