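import Pool.Agent.H98.BR.Cnt
import Pool.Agent.H98.SD.Poly
import Pool.Agent.H98.S8.Y289.HI.All
import Pool.Agent.H98.S8.Y459.HI.Vs

set_option autoImplicit false

/-!
# From four points in convex position to convex quadrilaterals
-/

namespace Pool.Agent.H98.BR

open MeasureTheory Set Filter Topology
open Pool.Agent.Helper546 (V cV)
open Pool.Agent.H417R2.CH (PC)
open Pool.Agent.W780.PG (IsConvexPolygon region creg reg)
open Pool.Agent.W703.GP (Isospectral)
open Pool.Agent.Y289.HI (Sys)
open Pool.Agent.Y289.SQ (Z)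

/-! ## Equal numbers of classical eigenfunctions give the same spectrum -/

lemma fin_fib {ι : Type} {E : ι → ℝ} (h : Summable fun k => Real.exp (-(1 * E k))) (μ : ℝ) :
    Finite {k // E k = μ} := by
  have h1 := h.tendsto_cofinite_zero.eventually (gt_mem_nhds (Real.exp_pos (-μ)))
  have h2 : {k | ¬ Real.exp (-(1 * E k)) < Real.exp (-μ)}.Finite := by
    simpa [Filter.eventually_cofinite] using h1
  refine (h2.subset fun k hk => ?_).to_subtype
  show ¬ Real.exp (-(1 * E k)) < Real.exp (-μ)
  have hk : E k = μ := hk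
  rw [hk, one_mul]
  exact lt_irrefl _

lemma pc_region {n : ℕ} {p : Fin (n + 3) → ℂ} (hp : IsConvexPolygon p) :
    PC (cV.symm ⁻¹' region p) := by
  obtain ⟨h1, h2, h3, h4, -⟩ := Pool.Agent.W703.GP.region_facts hp
  have e : cV.symm ⁻¹' region p = cV '' region p := by
    rw [LinearIsometryEquiv.image_eq_preimage_symm]
  refine ⟨h1.preimage cV.symm.continuous, ?_, ?_, ?_⟩
  · exact h2.linear_preimage cV.symm.toLinearEquiv.toLinearMap
  · rw [e]
    exact cV.lipschitz.isBounded_image h3
  · rw [e]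
    exact h4.image _

/-- **the bridge** -/
theorem bridge {n m : ℕ} {p : Fin (n + 3) → ℂ} {q : Fin (m + 3) → ℂ} (hp : IsConvexPolygon p)
    (hq : IsConvexPolygon q)
    (h : ∀ (μ : ℝ) (N : ℕ), HasN (cV.symm ⁻¹' region p) μ N ↔ HasN (cV.symm ⁻¹' region q) μ N) :
    Isospectral (region p) (region q) := by
  obtain ⟨h1, -, h3, h4, -⟩ := Pool.Agent.W703.GP.region_facts hp
  obtain ⟨k1, -, k3, k4, -⟩ := Pool.Agent.W703.GP.region_facts hq
  obtain ⟨ι, u, E, hS, hZ⟩ := Pool.Agent.Y289.HI.h_SB (region p) h1 h3 h4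
  obtain ⟨κ, v, F, hT, hW⟩ := Pool.Agent.Y289.HI.h_SB (region q) k1 k3 k4
  obtain ⟨e, he⟩ := exists_equiv (fin_fib (hS.trace 1 one_pos)) (fin_fib (hT.trace 1 one_pos))
    fun μ N => (hasN_iff (pc_region hp) (sys_sv hS) μ N).symm.trans
      ((h μ N).trans (hasN_iff (pc_region hq) (sys_sv hT) μ N))
  refine Pool.Agent.H98.SD.iso_of_Z hp hq fun t ht => ?_
  rw [← hZ t ht, ← hW t ht, ← e.tsum_eq]
  exact tsum_congr fun k => by rw [he k]

/-! ## Points in convex position -/

lemma ext_of_notMem {F : Type*} [AddCommGroup F] [Module ℝ F] {S : Set F} {s : F} (hs : s ∈ S)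
    (h : s ∉ convexHull ℝ (S \ {s})) : s ∈ (convexHull ℝ S).extremePoints ℝ := by
  rw [mem_extremePoints_iff_left]
  refine ⟨subset_convexHull ℝ S hs, ?_⟩
  have hS : S = insert s (S \ {s}) := by rw [insert_sdiff_singleton, insert_eq_of_mem hs]
  rcases (S \ {s}).eq_empty_or_nonempty with he | hne
  · rw [he] at hS
    intro x hx y _ _
    rw [hS] at hx
    simpa using hx
  · rw [hS, convexHull_insert hne]
    have hform : ∀ x ∈ convexJoin ℝ {s} (convexHull ℝ (S \ {s})), ∃ c ∈ convexHull ℝ (S \ {s}),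
        ∃ α : ℝ, 0 ≤ α ∧ x = (1 - α) • s + α • c := by
      intro x hx
      rw [mem_convexJoin] at hx
      obtain ⟨a, ha, c, hc, hx⟩ := hx
      rw [mem_singleton_iff] at ha
      rw [ha] at hx
      obtain ⟨a', b', ha', hb', hab, rfl⟩ := hx
      exact ⟨c, hc, b', hb', by rw [← hab, add_sub_cancel_right]⟩
    intro x hx y hy hxy
    obtain ⟨c, hc, α, hα, rfl⟩ := hform x hx
    obtain ⟨d, hd, β, hβ, rfl⟩ := hform y hy
    obtain ⟨a, b, ha, hb, hab, hsum⟩ := hxy
    by_cases hα0 : α = 0
    · rw [hα0]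
      simp
    · exfalso
      have hα1 : 0 < α := lt_of_le_of_ne hα (Ne.symm hα0)
      have hl : 0 < a * α + b * β := by positivity
      apply h
      have h1 : (a * α + b * β) • s = (a * α) • c + (b * β) • d := by
        have h2 : a • ((1 - α) • s + α • c) + b • ((1 - β) • s + β • d) =
            (a + b) • s - (a * α + b * β) • s + ((a * α) • c + (b * β) • d) := by module
        rw [h2, hab, one_smul] at hsum
        have h3 : s - (a * α + b * β) • s + ((a * α) • c + (b * β) • d) - s = 0 := by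
          rw [hsum, sub_self]
        have h4 : (a * α) • c + (b * β) • d - (a * α + b * β) • s = 0 := by
          rw [← h3]
          abel
        exact (sub_eq_zero.1 h4).symm
      have h2 : s = (a * α / (a * α + b * β)) • c + (b * β / (a * α + b * β)) • d := by
        have h3 : s = (a * α + b * β)⁻¹ • ((a * α + b * β) • s) := by
          rw [smul_smul, inv_mul_cancel₀ hl.ne', one_smul]
        rw [h3, h1, smul_add, smul_smul, smul_smul]
        congr 2 <;> ring
      have h3 : (a * α / (a * α + b * β)) • c + (b * β / (a * α + b * β)) • d ∈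
          convexHull ℝ (S \ {s}) :=
        convex_convexHull ℝ (S \ {s}) hc hd (by positivity) (by positivity) (by field_simp)
      rwa [← h2] at h3

lemma four_inj {F : Type*} [AddCommGroup F] [Module ℝ F] {p : Fin 4 → F}
    (h : ∀ i, p i ∉ convexHull ℝ (p '' {j | j ≠ i})) : Function.Injective p := by
  intro i j hij
  by_contra hne
  exact h i (subset_convexHull ℝ _ ⟨j, Ne.symm hne, hij.symm⟩)

lemma four_ext {F : Type*} [AddCommGroup F] [Module ℝ F] {p : Fin 4 → F}
    (h : ∀ i, p i ∉ convexHull ℝ (p '' {j | j ≠ i})) :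
    (convexHull ℝ (range p)).extremePoints ℝ = range p := by
  refine Subset.antisymm extremePoints_convexHull_subset ?_
  rintro _ ⟨i, rfl⟩
  refine ext_of_notMem (mem_range_self i) fun hc => h i (convexHull_mono ?_ hc)
  rintro _ ⟨⟨j, rfl⟩, hj⟩
  exact ⟨j, fun hji => hj (by rw [hji]; rfl), rfl⟩

lemma four_interior {F : Type*} [NormedAddCommGroup F] [NormedSpace ℝ F] [FiniteDimensional ℝ F]
    (hF : Module.finrank ℝ F = 2) {p : Fin 4 → F}
    (h : ∀ i, p i ∉ convexHull ℝ (p '' {j | j ≠ i})) :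
    (interior (convexHull ℝ (range p))).Nonempty := by
  rw [interior_convexHull_nonempty_iff_affineSpan_eq_top]
  by_contra hne
  rw [AffineSubspace.affineSpan_eq_top_iff_vectorSpan_eq_top_of_nonempty ℝ F F
    (range_nonempty p)] at hne
  have h1 := Submodule.finrank_lt hne
  rw [hF] at h1
  have hcol : Collinear ℝ (range p) := by
    rw [collinear_iff_finrank_le_one]
    omega
  have h3 : Collinear ℝ ({p 0, p 1, p 2} : Set F) := by
    refine hcol.subset ?_
    rintro x (rfl | rfl | rfl) <;> exact mem_range_self _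
  have hb : ∀ i j k : Fin 4, j ≠ i → j ≠ k → ¬ Wbtw ℝ (p i) (p j) (p k) := by
    intro i j k hji hjk hw
    apply h j
    have h4 : p j ∈ segment ℝ (p i) (p k) := by
      rw [← affineSegment_eq_segment]
      exact hw
    have hi : p i ∈ p '' {l | l ≠ j} := ⟨i, Ne.symm hji, rfl⟩
    have hk : p k ∈ p '' {l | l ≠ j} := ⟨k, Ne.symm hjk, rfl⟩
    exact segment_subset_convexHull hi hk h4
  rcases h3.wbtw_or_wbtw_or_wbtw with h4 | h4 | h4
  · exact hb 0 1 2 (by decide) (by decide) h4
  · exact hb 1 2 0 (by decide) (by decide) h4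
  · exact hb 2 0 1 (by decide) (by decide) h4

lemma hull_region {n : ℕ} {q : Fin (n + 3) → ℂ} (hq : IsConvexPolygon q) :
    closure (region q) = convexHull ℝ (range q) := by
  obtain ⟨-, -, -, -, -, -, h7, -⟩ := Pool.Agent.W174.PG.basic n q hq
  obtain ⟨h9, h10⟩ := Pool.Agent.W975.PG.hull Pool.Agent.W174.PG.basic n q hq
  rw [h10, h7, h9]

lemma poly_ext {n : ℕ} {q : Fin (n + 3) → ℂ} (hq : IsConvexPolygon q) :
    (convexHull ℝ (range q)).extremePoints ℝ = range q := by
  refine Subset.antisymm extremePoints_convexHull_subset ?_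
  rintro _ ⟨i, rfl⟩
  obtain ⟨-, -, -, -, -, -, -, h8, -, -, -, -, -, h14⟩ := Pool.Agent.W174.PG.basic n q hq
  obtain ⟨h9, -⟩ := Pool.Agent.W975.PG.hull Pool.Agent.W174.PG.basic n q hq
  rw [← h9, mem_extremePoints_iff_left]
  refine ⟨h8 i, fun x hx y hy hxy => ?_⟩
  by_contra hne
  by_cases hxy2 : x = y
  · rw [← hxy2, openSegment_same, mem_singleton_iff] at hxy
    exact hne hxy.symm
  · exact h14 i x hx y hy hxy2 hxy

theorem verts {p : Fin 4 → ℂ} (h : ∀ i, p i ∉ convexHull ℝ (p '' {j | j ≠ i})) :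
    ∃ q : Fin (1 + 3) → ℂ, IsConvexPolygon q ∧ region q = interior (convexHull ℝ (range p)) ∧
      range q = range p := by
  have hne := four_interior Complex.finrank_real_complex h
  obtain ⟨m, q, hq, hr⟩ := Pool.Agent.Y459.HI.vs (range p) (finite_range p) hne
  have hcl : convexHull ℝ (range q) = convexHull ℝ (range p) := by
    rw [← hull_region hq, hr,
      (convex_convexHull ℝ (range p)).closure_interior_eq_closure_of_nonempty_interior hne,
      ((finite_range p).isClosed_convexHull ℝ).closure_eq]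
  have hrg : range q = range p := by
    rw [← poly_ext hq, hcl, four_ext h]
  have hc : m + 3 = 4 := by
    have h1 := Nat.card_congr (Equiv.ofInjective q (Pool.Agent.W174.PG.basic m q hq).1)
    have h2 := Nat.card_congr (Equiv.ofInjective p (four_inj h))
    rw [hrg, ← h2, Nat.card_fin, Nat.card_fin] at h1
    exact h1
  obtain rfl : m = 1 := by omega
  exact ⟨q, hq, hr, hrg⟩

end Pool.Agent.H98.BR
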