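import Pool.Agent.H98.BR.App

set_option autoImplicit false

/-!
# Classical representatives of the eigenfunctions
-/

namespace Pool.Agent.H98.BR

open MeasureTheory Set Filter Topology
open Pool.Agent.Helper546 (V cV Tst lap dd)
open Pool.Agent.H417R2.CH (H10 gd IntEst PC)
open scoped ContDiff InnerProductSpace NNReal

lemma normsq_toLp {F : V → V} (hF : MemLp F 2 (volume : Measure V)) :
    ‖hF.toLp F‖ ^ 2 = ∫ x, ‖F x‖ ^ 2 := by
  rw [← real_inner_self_eq_norm_sq, MeasureTheory.L2.inner_def]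
  refine integral_congr_ae ?_
  filter_upwards [hF.coeFn_toLp] with x hx
  rw [hx, real_inner_self_eq_norm_sq]

lemma inner_toLp {F G : V → V} (hF : MemLp F 2 (volume : Measure V))
    (hG : MemLp G 2 (volume : Measure V)) :
    ⟪hF.toLp F, hG.toLp G⟫_ℝ = ∫ x, ⟪F x, G x⟫_ℝ := by
  rw [MeasureTheory.L2.inner_def]
  refine integral_congr_ae ?_
  filter_upwards [hF.coeFn_toLp, hG.coeFn_toLp] with x h1 h2
  rw [h1, h2]

lemma normsq_sub {F G : V → V} (hF : MemLp F 2 (volume : Measure V))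
    (hG : MemLp G 2 (volume : Measure V)) :
    ‖hF.toLp F - hG.toLp G‖ ^ 2 = ∫ x, ‖F x - G x‖ ^ 2 := by
  rw [← MemLp.toLp_sub hF hG, normsq_toLp]
  rfl

section

variable {ι : Type} {U : Set V} {u : ι → V → ℝ} {E : ι → ℝ}

theorem exists_H10 (hU : IsOpen U) (S : SV U u E) (k : ι) :
    ∃ G : V → V, H10 U (u k) G ∧
      ∀ ψ, Tst U ψ → ∫ x, ⟪G x, gradient ψ x⟫_ℝ = E k * ∫ x, u k x * ψ x := by
  have h0 : ∀ n : ℕ, ∃ φ, Tst U φ ∧ ∃ s : ℝ, s < 1 / ((n : ℝ) + 1) ∧
      HasSum (fun j => (1 + E j) * (∫ x, (φ x - u k x) * u j x) ^ 2) s := fun n =>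
    core_tst hU S k (by positivity)
  choose φ hφ s hs hsum using h0
  have hc : ∀ j, 0 ≤ 1 + E j := fun j => add_nonneg zero_le_one (S.pos j)
  have hs0 : ∀ n, 0 ≤ s n := fun n => (hsum n).nonneg fun j => mul_nonneg (hc j) (sq_nonneg _)
  have hlim : Tendsto s atTop (𝓝 0) :=
    squeeze_zero hs0 (fun n => (hs n).le) tendsto_one_div_add_atTop_nhds_zero_nat
  obtain ⟨g, hg⟩ : ∃ g : ℕ → Lp V 2 (volume : Measure V),
      ∀ n, g n = (grad_memLp (hφ n)).toLp (gradient (φ n)) := ⟨_, fun n => rfl⟩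
  have hgd : ∀ n m, ‖g n - g m‖ ^ 2 ≤ 2 * s n + 2 * s m := by
    intro n m
    rw [hg, hg, normsq_sub]
    exact dist_le S (hφ n) (hφ m) (hsum n) (hsum m)
  have hcau : CauchySeq g := by
    refine cauchySeq_of_le_tendsto_0 (fun N : ℕ => √(4 * (1 / ((N : ℝ) + 1)))) ?_ ?_
    · intro n m N hn hm
      rw [dist_eq_norm]
      refine Real.le_sqrt_of_sq_le ((hgd n m).trans ?_)
      have h1 : ∀ n : ℕ, N ≤ n → s n ≤ 1 / ((N : ℝ) + 1) := by
        intro n hn
        refine (hs n).le.trans ?_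
        have : (N : ℝ) ≤ n := by exact_mod_cast hn
        gcongr
      linarith [h1 n hn, h1 m hm]
    · have h1 := (tendsto_one_div_add_atTop_nhds_zero_nat (𝕜 := ℝ)).const_mul 4
      rw [mul_zero] at h1
      have h2 := (Real.continuous_sqrt.tendsto 0).comp h1
      rwa [Real.sqrt_zero] at h2
  obtain ⟨G, hG⟩ := cauchySeq_tendsto_of_complete hcau
  have hGm : MemLp (G : V → V) 2 (volume : Measure V) := Lp.memLp G
  have hGt : hGm.toLp (G : V → V) = G := Lp.toLp_coeFn G hGm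
  have hdist : ∀ n, ‖G - g n‖ ^ 2 = ∫ x, ‖(G : V → V) x - gradient (φ n) x‖ ^ 2 := by
    intro n
    rw [← normsq_sub hGm (grad_memLp (hφ n)), hGt, hg]
  have hdt : Tendsto (fun n => ∫ x, ‖(G : V → V) x - gradient (φ n) x‖ ^ 2) atTop (𝓝 0) := by
    have h1 := (tendsto_iff_norm_sub_tendsto_zero.1 hG).pow 2
    rw [zero_pow two_ne_zero] at h1
    refine h1.congr fun n => ?_
    rw [← hdist, norm_sub_rev]
  refine ⟨G, ⟨S.mem k, hGm, fun ε hε => ?_⟩, fun ψ hψ => ?_⟩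
  · obtain ⟨n, h1, h2⟩ := ((hlim.eventually (gt_mem_nhds hε)).and
      (hdt.eventually (gt_mem_nhds hε))).exists
    exact ⟨φ n, hφ n, (dist_le2 S (hφ n) (hsum n)).trans_lt h1, h2⟩
  · have h1 : Tendsto (fun n => ⟪g n, (grad_memLp hψ).toLp (gradient ψ)⟫_ℝ) atTop
        (𝓝 ⟪G, (grad_memLp hψ).toLp (gradient ψ)⟫_ℝ) := hG.inner tendsto_const_nhds
    have h2 : ⟪G, (grad_memLp hψ).toLp (gradient ψ)⟫_ℝ = ∫ x, ⟪(G : V → V) x, gradient ψ x⟫_ℝ := by
      rw [← inner_toLp hGm (grad_memLp hψ), hGt]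
    have h3 : ∀ n, ⟪g n, (grad_memLp hψ).toLp (gradient ψ)⟫_ℝ =
        ∫ x, ⟪gradient (φ n) x, gradient ψ x⟫_ℝ := fun n => by
      rw [hg, inner_toLp]
    rw [h2] at h1
    simp only [h3] at h1
    have h4 : Tendsto (fun n => (∫ x, ⟪gradient (φ n) x, gradient ψ x⟫_ℝ) -
        E k * ∫ x, u k x * ψ x) atTop (𝓝 0) := by
      have h5 : Tendsto (fun n => √(s n * ∫ x, ‖gradient ψ x‖ ^ 2)) atTop (𝓝 0) := by
        have h6 := hlim.mul_const (∫ x, ‖gradient ψ x‖ ^ 2)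
        rw [zero_mul] at h6
        have h7 := (Real.continuous_sqrt.tendsto 0).comp h6
        rwa [Real.sqrt_zero] at h7
      refine squeeze_zero_norm (fun n => ?_) h5
      rw [Real.norm_eq_abs]
      refine Real.le_sqrt_of_sq_le ?_
      rw [sq_abs]
      exact weak_le S (hφ n) hψ (hsum n)
    have h5 := h4.add_const (E k * ∫ x, u k x * ψ x)
    rw [zero_add] at h5
    refine tendsto_nhds_unique h1 (h5.congr fun n => ?_)
    ring

theorem H10.congr {v w : V → ℝ} {G K : V → V} (h : H10 U v G) (h1 : v =ᵐ[volume] w)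
    (h2 : G =ᵐ[volume] K) : H10 U w K := by
  refine ⟨h.memu.ae_eq h1, h.memG.ae_eq h2, fun ε hε => ?_⟩
  obtain ⟨φ, hφ, a, b⟩ := h.approx ε hε
  refine ⟨φ, hφ, ?_, ?_⟩
  · refine lt_of_eq_of_lt (integral_congr_ae ?_) a
    filter_upwards [h1] with x hx
    rw [hx]
  · refine lt_of_eq_of_lt (integral_congr_ae ?_) b
    filter_upwards [h2] with x hx
    rw [hx]

/-- classical eigenfunctions -/
structure Cl (U : Set V) (μ : ℝ) (w : V → ℝ) : Prop where
  cont : Continuous w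
  zero : ∀ x, x ∉ U → w x = 0
  diff : ContDiffOn ℝ 2 w U
  pde : ∀ x ∈ U, lap w x = -(μ * w x)

/-- the eigenfunctions have classical representatives -/
theorem rep (hU : PC U) (S : SV U u E) (k : ι) : ∃ w : V → ℝ, Cl U (E k) w ∧ w =ᵐ[volume] u k := by
  obtain ⟨G, hH, hw⟩ := exists_H10 hU.isOpen S k
  obtain ⟨w, hw1, hw2, hw3, hw4, hw5⟩ :=
    Pool.Agent.H417R2.CH.t_REGW U hU.isOpen (E k) (S.pos k) (u k) G hH hw
  have e1 : u k =ᵐ[volume] U.indicator w := by
    filter_upwards [hw3, hw4] with x h1 h2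
    by_cases hx : x ∈ U
    · rw [indicator_of_mem hx, (h1 hx).1]
    · rw [indicator_of_notMem hx, (h2 hx).1]
  have e2 : G =ᵐ[volume] gd U w := by
    filter_upwards [hw3, hw4] with x h1 h2
    unfold gd
    by_cases hx : x ∈ U
    · rw [indicator_of_mem hx, (h1 hx).2]
    · rw [indicator_of_notMem hx, (h2 hx).2]
  have hc := Pool.Agent.H417R2.CH.t_EIGF U hU w hw1 (H10.congr hH e1 e2) hw5
  refine ⟨U.indicator w, ⟨hc, fun x hx => indicator_of_notMem hx w, ?_, fun x hx => ?_⟩, e1.symm⟩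
  · refine (hw1.of_le (WithTop.coe_le_coe.2 le_top)).congr fun x hx => ?_
    rw [indicator_of_mem hx]
  · have h1 : U.indicator w =ᶠ[𝓝 x] w := by
      filter_upwards [hU.isOpen.mem_nhds hx] with y hy
      rw [indicator_of_mem hy]
    have h2 : ∀ i, dd i (U.indicator w) =ᶠ[𝓝 x] dd i w := by
      intro i
      filter_upwards [h1.eventuallyEq_nhds] with y hy
      unfold dd
      rw [hy.fderiv_eq]
    have h3 : ∀ i, dd i (dd i (U.indicator w)) x = dd i (dd i w) x := by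
      intro i
      show fderiv ℝ (dd i (U.indicator w)) x _ = fderiv ℝ (dd i w) x _
      rw [(h2 i).fderiv_eq]
    have h4 : lap (U.indicator w) x = lap w x := by
      unfold lap
      rw [h3, h3]
    rw [h4, hw2 x hx, indicator_of_mem hx]

end

end Pool.Agent.H98.BR
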