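import Pool.Agent.H98.S8.Y289.HI.Stm
import Pool.Agent.H98.BR.L.Helper546.Boundary

set_option autoImplicit false

/-!
# Spectral systems on the Euclidean plane
-/

namespace Pool.Agent.H98.BR

open MeasureTheory Set Filter Topology
open Pool.Agent.Helper546 (V cV)
open Pool.Agent.Y289.HI (Sys Lc en)
open Pool.Agent.W703.GP (dir)

/-- Lipschitz functions with compact support in `U` -/
def LcV (U : Set V) : Set (V → ℝ) :=
  {f | (∃ K : NNReal, LipschitzWith K f) ∧ HasCompactSupport f ∧ tsupport f ⊆ U}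

/-- complete orthonormal systems of eigenfunctions with zero boundary values -/
structure SV {ι : Type} (U : Set V) (u : ι → V → ℝ) (E : ι → ℝ) : Prop where
  mem : ∀ k, MemLp (u k) 2
  zero : ∀ k x, x ∉ U → u k x = 0
  norm : ∀ k, ∫ x, u k x ^ 2 = 1
  orth : ∀ j k, j ≠ k → ∫ x, u j x * u k x = 0
  pos : ∀ k, 0 ≤ E k
  pars : ∀ f : V → ℝ, MemLp f 2 → (∀ x, x ∉ U → f x = 0) →
    HasSum (fun k => (∫ x, f x * u k x) ^ 2) (∫ x, f x ^ 2)
  form : ∀ f ∈ LcV U, HasSum (fun k => E k * (∫ x, f x * u k x) ^ 2) (∫ x, ‖fderiv ℝ f x‖ ^ 2)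
  core : ∀ k, ∀ ε : ℝ, 0 < ε → ∃ f ∈ LcV U, ∃ s : ℝ, s < ε ∧
    HasSum (fun j => (1 + E j) * (∫ x, (f x - u k x) * u j x) ^ 2) s

theorem int_cV (f : V → ℝ) : ∫ z : ℂ, f (cV z) = ∫ x, f x :=
  (LinearIsometryEquiv.measurePreserving cV).integral_comp
    cV.toHomeomorph.measurableEmbedding f

theorem memLp_cV {f : V → ℝ} (hf : MemLp f 2) : MemLp (fun z : ℂ => f (cV z)) 2 :=
  hf.comp_measurePreserving (LinearIsometryEquiv.measurePreserving cV)

theorem memLp_cV' {f : ℂ → ℝ} (hf : MemLp f 2) : MemLp (fun x : V => f (cV.symm x)) 2 :=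
  hf.comp_measurePreserving (LinearIsometryEquiv.measurePreserving cV.symm)

theorem norm_fderiv_cV (f : V → ℝ) (z : ℂ) :
    ‖fderiv ℝ (fun z : ℂ => f (cV z)) z‖ = ‖fderiv ℝ f (cV z)‖ := by
  have h : fderiv ℝ (fun z : ℂ => f (cV z)) z =
      (fderiv ℝ f (cV z)).comp (cV.toContinuousLinearEquiv : ℂ →L[ℝ] V) :=
    cV.toContinuousLinearEquiv.comp_right_fderiv (f := f) (x := z)
  rw [h]
  exact ContinuousLinearMap.opNorm_comp_linearIsometryEquiv _ cV

theorem supp_cV {U : Set V} {f : V → ℝ} (h : HasCompactSupport f) (hs : tsupport f ⊆ U) :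
    HasCompactSupport (fun z : ℂ => f (cV z)) ∧
      tsupport (fun z : ℂ => f (cV z)) ⊆ cV ⁻¹' U := by
  have h1 : tsupport (fun z : ℂ => f (cV z)) = cV ⁻¹' tsupport f :=
    tsupport_comp_eq_preimage f cV.toHomeomorph
  refine ⟨h.comp_homeomorph cV.toHomeomorph, ?_⟩
  rw [h1]
  exact preimage_mono hs

theorem supp_cV' {Ω : Set ℂ} {f : ℂ → ℝ} (h : HasCompactSupport f) (hs : tsupport f ⊆ Ω) :
    HasCompactSupport (fun x : V => f (cV.symm x)) ∧
      tsupport (fun x : V => f (cV.symm x)) ⊆ cV.symm ⁻¹' Ω := by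
  have h1 : tsupport (fun x : V => f (cV.symm x)) = cV.symm ⁻¹' tsupport f :=
    tsupport_comp_eq_preimage f cV.symm.toHomeomorph
  refine ⟨h.comp_homeomorph cV.symm.toHomeomorph, ?_⟩
  rw [h1]
  exact preimage_mono hs

theorem lc_cV {U : Set V} {f : V → ℝ} (h : f ∈ LcV U) : (fun z : ℂ => f (cV z)) ∈ Lc (cV ⁻¹' U) := by
  obtain ⟨⟨K, hK⟩, h2, h3⟩ := h
  exact ⟨⟨K * 1, hK.comp cV.lipschitz⟩, supp_cV h2 h3⟩

theorem lc_cV' {Ω : Set ℂ} {f : ℂ → ℝ} (h : f ∈ Lc Ω) :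
    (fun x : V => f (cV.symm x)) ∈ LcV (cV.symm ⁻¹' Ω) := by
  obtain ⟨⟨K, hK⟩, h2, h3⟩ := h
  exact ⟨⟨K * 1, hK.comp cV.symm.lipschitz⟩, supp_cV' h2 h3⟩

theorem en_zero (f : ℂ → ℝ) : en (fun _ => 0) f = dir f := by
  simp [en]

/-- transport of spectral systems -/
theorem sys_sv {ι : Type} {Ω : Set ℂ} {u : ι → ℂ → ℝ} {E : ι → ℝ}
    (S : Sys Ω (fun _ => 0) u E) : SV (cV.symm ⁻¹' Ω) (fun k x => u k (cV.symm x)) E := by
  have hpre : ∀ x : V, x ∉ cV.symm ⁻¹' Ω ↔ cV.symm x ∉ Ω := fun x => Iff.rfl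
  have hz : ∀ f : V → ℝ, (∀ x, x ∉ cV.symm ⁻¹' Ω → f x = 0) → ∀ z : ℂ, z ∉ Ω → f (cV z) = 0 := by
    intro f hf z hz
    apply hf
    rw [hpre, LinearIsometryEquiv.symm_apply_apply]
    exact hz
  have hcoef : ∀ (f : V → ℝ) (k : ι),
      ∫ z : ℂ, f (cV z) * u k z = ∫ x, f x * u k (cV.symm x) := by
    intro f k
    rw [← int_cV (fun x => f x * u k (cV.symm x))]
    simp only [LinearIsometryEquiv.symm_apply_apply]
  have hset : cV ⁻¹' (cV.symm ⁻¹' Ω) = Ω := by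
    ext z
    simp
  refine ⟨fun k => memLp_cV' (S.mem k), fun k x hx => S.zero k _ hx, fun k => ?_,
    fun j k hjk => ?_, S.pos, fun f hf h0 => ?_, fun f hf => ?_, fun k ε hε => ?_⟩
  · have h := int_cV (fun x => u k (cV.symm x) ^ 2)
    simp only [LinearIsometryEquiv.symm_apply_apply] at h
    rw [← h, S.norm k]
  · have h := int_cV (fun x => u j (cV.symm x) * u k (cV.symm x))
    simp only [LinearIsometryEquiv.symm_apply_apply] at h
    rw [← h, S.orth j k hjk]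
  · have h := S.pars (fun z => f (cV z)) (memLp_cV hf) (hz f h0)
    rw [int_cV (fun x => f x ^ 2)] at h
    simpa only [hcoef] using h
  · have h1 : (fun z : ℂ => f (cV z)) ∈ Lc Ω := by
      have := lc_cV hf
      rwa [hset] at this
    have h := S.form _ h1
    rw [en_zero, dir] at h
    have e : ∫ z : ℂ, ‖fderiv ℝ (fun z : ℂ => f (cV z)) z‖ ^ 2 = ∫ x, ‖fderiv ℝ f x‖ ^ 2 := by
      simp only [norm_fderiv_cV]
      exact int_cV (fun x => ‖fderiv ℝ f x‖ ^ 2)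
    rw [e] at h
    simpa only [hcoef] using h
  · obtain ⟨f, hf, s, hs, hsum⟩ := S.core k ε hε
    refine ⟨fun x => f (cV.symm x), lc_cV' hf, s, hs, ?_⟩
    have e : ∀ j, ∫ x : V, (f (cV.symm x) - u k (cV.symm x)) * u j (cV.symm x) =
        ∫ z, (f z - u k z) * u j z := by
      intro j
      have h := int_cV (fun x => (f (cV.symm x) - u k (cV.symm x)) * u j (cV.symm x))
      simp only [LinearIsometryEquiv.symm_apply_apply] at h
      exact h.symm
    simpa only [e] using hsum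

end Pool.Agent.H98.BR
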