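import Pool.Agent.H98.BR.Rep

set_option autoImplicit false

/-!
# Truncation of classical eigenfunctions
-/

namespace Pool.Agent.H98.BR

open MeasureTheory Set Filter Topology
open Pool.Agent.Helper546 (V cV Tst lap dd ee)
open scoped ContDiff

/-! ## The truncation function -/

/-- second derivative of the truncation -/
noncomputable def tr (ε s : ℝ) : ℝ := min 1 (max 0 (|s| / ε - 1))

/-- first derivative of the truncation -/
noncomputable def TT (ε s : ℝ) : ℝ := ∫ r in (0 : ℝ)..s, tr ε r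

/-- the convex function with second derivative `tr ε` -/
noncomputable def HH (ε s : ℝ) : ℝ := ∫ r in (0 : ℝ)..s, TT ε r

variable {ε : ℝ}

lemma tr_cont (ε : ℝ) : Continuous (tr ε) := by
  unfold tr
  fun_prop

lemma tr_nonneg (ε s : ℝ) : 0 ≤ tr ε s := le_min zero_le_one (le_max_left _ _)

lemma tr_le_one (ε s : ℝ) : tr ε s ≤ 1 := min_le_left _ _

lemma tr_zero (hε : 0 < ε) {s : ℝ} (hs : |s| ≤ ε) : tr ε s = 0 := by
  unfold tr
  have h1 : |s| / ε - 1 ≤ 0 := by
    rw [sub_nonpos, div_le_one hε]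
    exact hs
  rw [max_eq_left h1]
  exact min_eq_right zero_le_one

lemma tr_one (hε : 0 < ε) {s : ℝ} (hs : 2 * ε ≤ |s|) : tr ε s = 1 := by
  unfold tr
  have h1 : 1 ≤ |s| / ε - 1 := by
    rw [le_sub_iff_add_le, le_div_iff₀ hε]
    linarith
  exact min_eq_left (h1.trans (le_max_right _ _))

lemma TT_deriv (ε s : ℝ) : HasDerivAt (TT ε) (tr ε s) s :=
  intervalIntegral.integral_hasDerivAt_right ((tr_cont ε).intervalIntegrable _ _)
    (tr_cont ε).stronglyMeasurable.stronglyMeasurableAtFilter (tr_cont ε).continuousAt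

lemma TT_diff (ε : ℝ) : ContDiff ℝ 1 (TT ε) := by
  rw [contDiff_one_iff_deriv]
  refine ⟨fun s => (TT_deriv ε s).differentiableAt, ?_⟩
  have : deriv (TT ε) = tr ε := funext fun s => (TT_deriv ε s).deriv
  rw [this]
  exact tr_cont ε

lemma TT_cont (ε : ℝ) : Continuous (TT ε) := (TT_diff ε).continuous

lemma HH_deriv (ε s : ℝ) : HasDerivAt (HH ε) (TT ε s) s :=
  intervalIntegral.integral_hasDerivAt_right ((TT_cont ε).intervalIntegrable _ _)
    (TT_cont ε).stronglyMeasurable.stronglyMeasurableAtFilter (TT_cont ε).continuousAt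

lemma HH_diff (ε : ℝ) : ContDiff ℝ 2 (HH ε) := by
  have h : (2 : WithTop ℕ∞) = 1 + 1 := by norm_num
  rw [h, contDiff_succ_iff_deriv]
  refine ⟨fun s => (HH_deriv ε s).differentiableAt, fun h => by simp at h, ?_⟩
  have : deriv (HH ε) = TT ε := funext fun s => (HH_deriv ε s).deriv
  rw [this]
  exact TT_diff ε

lemma abs_mem {s r : ℝ} (h : r ∈ uIcc 0 s) : |r| ≤ |s| := by
  rcases le_total 0 s with hs | hs
  · rw [uIcc_of_le hs] at h
    rw [abs_of_nonneg h.1, abs_of_nonneg hs]
    exact h.2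
  · rw [uIcc_of_ge hs] at h
    rw [abs_of_nonpos h.2, abs_of_nonpos hs]
    linarith [h.1]

lemma TT_zero (hε : 0 < ε) {s : ℝ} (hs : |s| ≤ ε) : TT ε s = 0 := by
  unfold TT
  have : EqOn (tr ε) (fun _ => 0) (uIcc 0 s) := fun r hr => tr_zero hε ((abs_mem hr).trans hs)
  rw [intervalIntegral.integral_congr this]
  simp

lemma HH_zero (hε : 0 < ε) {s : ℝ} (hs : |s| ≤ ε) : HH ε s = 0 := by
  unfold HH
  have : EqOn (TT ε) (fun _ => 0) (uIcc 0 s) := fun r hr => TT_zero hε ((abs_mem hr).trans hs)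
  rw [intervalIntegral.integral_congr this]
  simp

lemma TT_le (ε s : ℝ) : |TT ε s| ≤ |s| := by
  have := intervalIntegral.norm_integral_le_of_norm_le_const (a := 0) (b := s) (f := tr ε) (C := 1)
    fun r _ => by
      rw [Real.norm_of_nonneg (tr_nonneg ε r)]
      exact tr_le_one ε r
  rw [one_mul, sub_zero] at this
  exact this

lemma TT_near (hε : 0 < ε) (s : ℝ) : |TT ε s - s| ≤ 2 * ε := by
  have h1 : TT ε s - s = ∫ r in (0 : ℝ)..s, (tr ε r - 1) := by
    rw [intervalIntegral.integral_sub ((tr_cont ε).intervalIntegrable _ _)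
      intervalIntegrable_const]
    simp [TT]
  have hint : ∀ a b : ℝ, IntervalIntegrable (fun r => tr ε r - 1) volume a b := fun a b =>
    ((tr_cont ε).sub continuous_const).intervalIntegrable a b
  have hb : ∀ r, ‖tr ε r - 1‖ ≤ 1 := fun r => by
    rw [Real.norm_eq_abs, abs_le]
    constructor <;> linarith [tr_nonneg ε r, tr_le_one ε r]
  rcases le_total |s| (2 * ε) with h | h
  · rw [h1]
    have := intervalIntegral.norm_integral_le_of_norm_le_const (a := 0) (b := s)
      (f := fun r => tr ε r - 1) (C := 1) fun r _ => hb r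
    rw [one_mul, sub_zero] at this
    exact (le_trans this h)
  · rcases le_total 0 s with hs | hs
    · rw [abs_of_nonneg hs] at h
      have h2 : ∫ r in (2 * ε)..s, (tr ε r - 1) = 0 := by
        have : EqOn (fun r => tr ε r - 1) (fun _ => 0) (uIcc (2 * ε) s) := fun r hr => by
          rw [uIcc_of_le h] at hr
          show tr ε r - 1 = 0
          rw [tr_one hε (hr.1.trans (le_abs_self r)), sub_self]
        rw [intervalIntegral.integral_congr this]
        simp
      rw [h1, ← intervalIntegral.integral_add_adjacent_intervals (hint 0 (2 * ε)) (hint _ s), h2,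
        add_zero]
      have := intervalIntegral.norm_integral_le_of_norm_le_const (a := 0) (b := 2 * ε)
        (f := fun r => tr ε r - 1) (C := 1) fun r _ => hb r
      rw [one_mul, sub_zero, abs_of_pos (by positivity : 0 < 2 * ε)] at this
      exact this
    · rw [abs_of_nonpos hs] at h
      have h2 : ∫ r in (-(2 * ε))..s, (tr ε r - 1) = 0 := by
        have : EqOn (fun r => tr ε r - 1) (fun _ => 0) (uIcc (-(2 * ε)) s) := fun r hr => by
          rw [uIcc_of_ge (by linarith)] at hr
          show tr ε r - 1 = 0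
          rw [tr_one hε (by linarith [hr.2, neg_le_abs r]), sub_self]
        rw [intervalIntegral.integral_congr this]
        simp
      rw [h1, ← intervalIntegral.integral_add_adjacent_intervals (hint 0 (-(2 * ε))) (hint _ s), h2,
        add_zero]
      have := intervalIntegral.norm_integral_le_of_norm_le_const (a := 0) (b := -(2 * ε))
        (f := fun r => tr ε r - 1) (C := 1) fun r _ => hb r
      rw [one_mul, sub_zero, abs_neg, abs_of_pos (by positivity : 0 < 2 * ε)] at this
      exact this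

/-! ## Truncations of classical eigenfunctions -/

section

variable {U : Set V} {μ : ℝ} {f : V → ℝ}

/-- the set where the function is not small -/
lemma big_closed (hf : Cl U μ f) (ε : ℝ) : IsClosed {x | ε ≤ |f x|} :=
  isClosed_le continuous_const hf.cont.abs

lemma big_sub (hf : Cl U μ f) (hε : 0 < ε) : {x | ε ≤ |f x|} ⊆ U := by
  intro x hx
  by_contra h
  have hx : ε ≤ |f x| := hx
  rw [hf.zero x h, abs_zero] at hx
  linarith

lemma big_compact (hb : Bornology.IsBounded U) (hf : Cl U μ f) (hε : 0 < ε) :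
    IsCompact {x | ε ≤ |f x|} :=
  Metric.isCompact_of_isClosed_isBounded (big_closed hf ε) (hb.subset (big_sub hf hε))

/-- compositions with functions which vanish near zero -/
lemma comp_supp (hb : Bornology.IsBounded U) (hf : Cl U μ f) (hε : 0 < ε) {g : ℝ → ℝ}
    (hg : ∀ s, |s| ≤ ε → g s = 0) :
    HasCompactSupport (fun x => g (f x)) ∧ tsupport (fun x => g (f x)) ⊆ {x | ε ≤ |f x|} := by
  have h0 : ∀ x, x ∉ {x | ε ≤ |f x|} → g (f x) = 0 := fun x hx => hg _ (not_le.1 hx).le
  refine ⟨HasCompactSupport.intro (big_compact hb hf hε) h0, closure_minimal ?_ (big_closed hf ε)⟩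
  intro x hx
  by_contra h
  exact hx (h0 x h)

lemma comp_near (hU : IsOpen U) (hf : Cl U μ f) (hε : 0 < ε) {g : ℝ → ℝ}
    (hg : ∀ s, |s| ≤ ε → g s = 0) {x : V} (hx : x ∉ U) :
    (fun x => g (f x)) =ᶠ[𝓝 x] fun _ => 0 := by
  have h1 : {y | |f y| < ε} ∈ 𝓝 x := by
    refine (isOpen_lt hf.cont.abs continuous_const).mem_nhds ?_
    show |f x| < ε
    rw [hf.zero x hx, abs_zero]
    exact hε
  filter_upwards [h1] with y hy
  exact hg _ (le_of_lt hy)

lemma comp_diff (hU : IsOpen U) (hf : Cl U μ f) (hε : 0 < ε) {g : ℝ → ℝ}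
    (hg : ∀ s, |s| ≤ ε → g s = 0) {n : ℕ} (hn : n ≤ 2) (hd : ContDiff ℝ n g) :
    ContDiff ℝ n (fun x => g (f x)) := by
  rw [contDiff_iff_contDiffAt]
  intro x
  by_cases hx : x ∈ U
  · have h1 : ContDiffAt ℝ 2 f x := hf.diff.contDiffAt (hU.mem_nhds hx)
    have h2 : ContDiffAt ℝ n f x := h1.of_le (by exact_mod_cast hn)
    exact hd.contDiffAt.comp x h2
  · exact contDiffAt_const.congr_of_eventuallyEq (comp_near hU hf hε hg hx)

lemma f_diffAt (hU : IsOpen U) (hf : Cl U μ f) {x : V} (hx : x ∈ U) : DifferentiableAt ℝ f x :=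
  (hf.diff.contDiffAt (hU.mem_nhds hx)).differentiableAt (by norm_num)

lemma dd_comp (hU : IsOpen U) (hf : Cl U μ f) {g g' : ℝ → ℝ} (hg : ∀ s, HasDerivAt g (g' s) s)
    {x : V} (hx : x ∈ U) (i : Fin 2) : dd i (fun x => g (f x)) x = g' (f x) * dd i f x := by
  have h1 := (hg (f x)).comp_hasFDerivAt x (f_diffAt hU hf hx).hasFDerivAt
  unfold dd
  have h2 : fderiv ℝ (fun x => g (f x)) x = g' (f x) • fderiv ℝ f x := h1.fderiv
  rw [h2]
  rfl

lemma dd_f_diffAt (hU : IsOpen U) (hf : Cl U μ f) {x : V} (hx : x ∈ U) (i : Fin 2) :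
    DifferentiableAt ℝ (dd i f) x := by
  have h1 : ContDiffAt ℝ 2 f x := hf.diff.contDiffAt (hU.mem_nhds hx)
  have h2 : DifferentiableAt ℝ (fderiv ℝ f) x :=
    (h1.fderiv_right (m := 1) (by norm_num)).differentiableAt (by norm_num)
  exact h2.clm_apply (differentiableAt_const _)

/-- the Laplacian of a truncation -/
lemma lap_HH (hU : IsOpen U) (hf : Cl U μ f) (hε : 0 < ε) (x : V) :
    lap (fun x => HH ε (f x)) x = tr ε (f x) * ‖fderiv ℝ f x‖ ^ 2 - μ * (TT ε (f x) * f x) := by
  by_cases hx : x ∈ U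
  · have h1 : ∀ i, dd i (dd i (fun x => HH ε (f x))) x =
        tr ε (f x) * dd i f x ^ 2 + TT ε (f x) * dd i (dd i f) x := by
      intro i
      have e1 : dd i (fun x => HH ε (f x)) =ᶠ[𝓝 x] fun y => TT ε (f y) * dd i f y := by
        filter_upwards [hU.mem_nhds hx] with y hy
        exact dd_comp hU hf (HH_deriv ε) hy i
      have e2 : HasFDerivAt (fun y => TT ε (f y)) (tr ε (f x) • fderiv ℝ f x) x :=
        (TT_deriv ε (f x)).comp_hasFDerivAt x (f_diffAt hU hf hx).hasFDerivAt
      have e3 := e2.mul (dd_f_diffAt hU hf hx i).hasFDerivAt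
      have e4 : fderiv ℝ (dd i (fun x => HH ε (f x))) x =
          TT ε (f x) • fderiv ℝ (dd i f) x + dd i f x • tr ε (f x) • fderiv ℝ f x := by
        rw [e1.fderiv_eq]
        exact e3.fderiv
      show fderiv ℝ (dd i (fun x => HH ε (f x))) x (ee i) = _
      rw [e4]
      show TT ε (f x) * dd i (dd i f) x + dd i f x * (tr ε (f x) * dd i f x) = _
      ring
    unfold lap
    rw [h1, h1, Pool.Agent.Helper546.norm_fderiv_sq]
    have h2 := hf.pde x hx
    unfold lap at h2
    linear_combination TT ε (f x) * h2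
  · have h1 := comp_near hU hf hε (g := HH ε) (fun s hs => HH_zero hε hs) hx
    have h2 : ∀ i, dd i (fun x => HH ε (f x)) =ᶠ[𝓝 x] fun _ => 0 := by
      intro i
      filter_upwards [h1.eventuallyEq_nhds] with y hy
      unfold dd
      rw [hy.fderiv_eq, fderiv_const_apply]
      rfl
    have h3 : ∀ i, dd i (dd i (fun x => HH ε (f x))) x = 0 := by
      intro i
      show fderiv ℝ (dd i (fun x => HH ε (f x))) x (ee i) = 0
      rw [(h2 i).fderiv_eq, fderiv_const_apply]
      rfl
    unfold lap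
    rw [h3, h3, hf.zero x hx, tr_zero hε (by rw [abs_zero]; exact hε.le)]
    ring

end

end Pool.Agent.H98.BR
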